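import Pool.Agent.R345.CT3

set_option autoImplicit false

/-!
# Mean values of the torsion of the class groups of `ℚ(√(a + b))` over arbitrary sumsets

Let `A`, `B` be arbitrary finite sets of integers of absolute value at most `N`, without any condition on their structure, and
let `Y ≥ 1` with `Y ^ (2 k) ≤ |A|, |B|`. The moment of order `k` of `|Cl(ℚ(√(a + b)))[ℓ]|` over all the pairs `(a, b)` is at most
`(C ℓ ^ 2 (log N) ^ 6 √(8 N) max ((8 N) ^ (- 1 / (2 ℓ)), 1 / Y)) ^ k`.

So there is a power saving over the trivial bound for all sets `A`, `B` with at least `N ^ δ` elements, and if `A` and `B` have at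
least `(8 N) ^ (k / ℓ)` elements, the `k`-th moment is at most `(C ℓ ^ 2 (log N) ^ 6 (8 N) ^ (1 / 2 - 1 / (2 ℓ))) ^ k`: on average over
an arbitrary sumset the torsion satisfies the bound that is known for single fields under the Riemann hypothesis.
-/

namespace Pool.Agent.Results.MP_16912e_nt.ArbitrarySumsets

open NumberField Finset

lemma sub_Icc {A : Finset ℤ} {M : ℤ} (h : ∀ a ∈ A, |a| ≤ M) : A ⊆ Finset.Icc (-M) M := by
  intro a ha
  rw [Finset.mem_Icc]
  exact abs_le.1 (h a ha)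

lemma disc_gt (K : Type) [Field K] [NumberField K] (h : Module.finrank ℚ K = 2) : (2 : ℝ) < |(discr K : ℝ)| := by
  have h1 : (2 : ℤ) < |discr K| := abs_discr_gt_two (by omega)
  exact_mod_cast h1

/-- summation over dyadic levels -/
theorem level_sum {ι : Type} [DecidableEq ι] (S : Finset ι) (f : ι → ℝ) (G : ℕ → Finset ι) (I k : ℕ) (T M Q : ℝ)
    (hf : ∀ z ∈ S, 0 ≤ f z) (hM : 0 ≤ M) (hQ : 0 ≤ Q) (hT : 0 ≤ T)
    (h1 : ∀ z ∈ S, ∀ i, z ∉ G i → f z ≤ M * (2 ^ i + Q))
    (h2 : ∀ z ∈ S, f z ≤ M * 2 ^ I)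
    (h3 : ∀ i, (((G i) ∩ S).card : ℝ) ≤ (T / 2 ^ i) ^ k * S.card) :
    ∑ z ∈ S, f z ^ k ≤ M ^ k * ((1 + Q) ^ k + I * (T * (2 + Q)) ^ k) * S.card := by
  have key : ∀ z ∈ S, f z ^ k ≤ M ^ k * (1 + Q) ^ k +
      ∑ i ∈ range I, (if z ∈ G i then (M * (2 ^ (i + 1) + Q)) ^ k else 0) := by
    intro z hz
    have hf0 := hf z hz
    have hterm : ∀ i, 0 ≤ (if z ∈ G i then (M * (2 ^ (i + 1) + Q)) ^ k else 0) := by
      intro i
      split_ifs
      · positivity
      · exact le_rfl
    by_cases hex : ∃ i, i ≤ I ∧ z ∉ G i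
    · have hmin := Nat.find_spec hex
      set i := Nat.find hex with hi
      rcases Nat.eq_zero_or_pos i with h0 | h0
      · rw [h0] at hmin
        have h4 := h1 z hz 0 hmin.2
        rw [pow_zero] at h4
        have h5 : f z ^ k ≤ (M * (1 + Q)) ^ k := pow_le_pow_left₀ hf0 h4 k
        rw [mul_pow] at h5
        have := Finset.sum_nonneg (s := range I) fun i _ => hterm i
        linarith
      · obtain ⟨j, hj⟩ : ∃ j, i = j + 1 := ⟨i - 1, by omega⟩
        have hjG : z ∈ G j := by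
          by_contra hcon
          exact Nat.find_min hex (m := j) (by omega) ⟨by omega, hcon⟩
        have h4 := h1 z hz i hmin.2
        rw [hj] at h4
        have h5 : f z ^ k ≤ (M * (2 ^ (j + 1) + Q)) ^ k := pow_le_pow_left₀ hf0 h4 k
        have h6 := Finset.single_le_sum (f := fun i => if z ∈ G i then (M * (2 ^ (i + 1) + Q)) ^ k else 0)
          (s := range I) (fun i _ => hterm i) (mem_range.2 (show j < I by omega))
        simp only [if_pos hjG] at h6
        have h7 : 0 ≤ M ^ k * (1 + Q) ^ k := by positivity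
        linarith
    · push Not at hex
      rcases Nat.eq_zero_or_pos I with h0 | h0
      · have h4 := h2 z hz
        rw [h0, pow_zero, mul_one] at h4
        have h5 : f z ≤ M * (1 + Q) := h4.trans (le_mul_of_one_le_right hM (by linarith))
        have h6 : f z ^ k ≤ (M * (1 + Q)) ^ k := pow_le_pow_left₀ hf0 h5 k
        rw [mul_pow] at h6
        have := Finset.sum_nonneg (s := range I) fun i _ => hterm i
        linarith
      · obtain ⟨j, hj⟩ : ∃ j, I = j + 1 := ⟨I - 1, by omega⟩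
        have h4 := h2 z hz
        have h5 : f z ≤ M * (2 ^ (j + 1) + Q) := by
          rw [hj] at h4
          exact h4.trans (mul_le_mul_of_nonneg_left (by linarith) hM)
        have h5' : f z ^ k ≤ (M * (2 ^ (j + 1) + Q)) ^ k := pow_le_pow_left₀ hf0 h5 k
        have h6 := Finset.single_le_sum (f := fun i => if z ∈ G i then (M * (2 ^ (i + 1) + Q)) ^ k else 0)
          (s := range I) (fun i _ => hterm i) (mem_range.2 (show j < I by omega))
        simp only [if_pos (hex j (by omega))] at h6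
        have h7 : 0 ≤ M ^ k * (1 + Q) ^ k := by positivity
        linarith
  refine (Finset.sum_le_sum key).trans ?_
  rw [Finset.sum_add_distrib, Finset.sum_const, nsmul_eq_mul, Finset.sum_comm]
  have h4 : ∀ i ∈ range I, ∑ z ∈ S, (if z ∈ G i then (M * (2 ^ (i + 1) + Q)) ^ k else 0) ≤
      M ^ k * (T * (2 + Q)) ^ k * S.card := by
    intro i _
    rw [← Finset.sum_filter, Finset.sum_const, nsmul_eq_mul]
    have h5 : S.filter (fun z => z ∈ G i) = G i ∩ S := by
      ext z; rw [mem_filter, mem_inter]; tauto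
    rw [h5]
    calc ((G i ∩ S).card : ℝ) * (M * (2 ^ (i + 1) + Q)) ^ k
        ≤ ((T / 2 ^ i) ^ k * S.card) * (M * (2 ^ (i + 1) + Q)) ^ k := by
          apply mul_le_mul_of_nonneg_right (h3 i) (by positivity)
      _ = M ^ k * ((T / 2 ^ i) * (2 ^ (i + 1) + Q)) ^ k * S.card := by
          rw [mul_pow, mul_pow]; ring
      _ ≤ M ^ k * (T * (2 + Q)) ^ k * S.card := by
          have h6 : (T / 2 ^ i) * (2 ^ (i + 1) + Q) ≤ T * (2 + Q) := by
            have h7 : (1 : ℝ) ≤ 2 ^ i := one_le_pow₀ (by norm_num)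
            have h8 : (T / 2 ^ i) * (2 ^ (i + 1) + Q) = T * (2 + Q / 2 ^ i) := by
              rw [pow_succ]; field_simp
            rw [h8]
            apply mul_le_mul_of_nonneg_left _ hT
            have : Q / 2 ^ i ≤ Q := div_le_self hQ h7
            linarith
          gcongr
  have h5 := Finset.sum_le_sum h4
  rw [Finset.sum_const, card_range, nsmul_eq_mul] at h5
  calc _ ≤ (S.card : ℝ) * (M ^ k * (1 + Q) ^ k) + I * (M ^ k * (T * (2 + Q)) ^ k * S.card) := by linarith
    _ = _ := by ring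

open Pool.Agent.R345.SS in
open Classical in
/-- **Moments of the torsion over arbitrary sumsets.** For `k ≥ 1` there is a constant `C` such that the following holds for
all `N ≥ 2`, `ℓ ≥ 1`, `Y ≥ 1` and all finite sets `A`, `B` of integers of absolute value at most `N` with at least `Y ^ (2 k)`
elements. Let `K n` be number fields such that, for the pairs `(a, b)` in a subset `S` of `A × B`, `K (a + b)` is the quadratic
field `ℚ(√(a + b))`, real or imaginary. Then the sum of the `k`-th powers of the number of the ideal classes of `K (a + b)` killed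
by `ℓ`, over the pairs in `S`, is at most `|A| |B| (C ℓ ^ 2 (log N) ^ 6 √(8 N) max ((8 N) ^ (- 1 / (2 ℓ)), 1 / Y)) ^ k`. In
particular it is at most `|A| |B| (C ℓ ^ 2 (log N) ^ 6 (8 N) ^ (1 / 2 - 1 / (2 ℓ))) ^ k` if `|A|, |B| ≥ (8 N) ^ (k / ℓ)`. -/
theorem result (k : ℕ) (hk : 1 ≤ k) : ∃ C : ℝ, 1 ≤ C ∧
    ∀ (N : ℕ) (A B : Finset ℤ) (ℓ : ℕ), 2 ≤ N → (∀ a ∈ A, |a| ≤ (N : ℤ)) → (∀ b ∈ B, |b| ≤ (N : ℤ)) → 1 ≤ ℓ →
    ∀ (K : ℤ → Type) [∀ n, Field (K n)] [∀ n, NumberField (K n)] (S : Finset (ℤ × ℤ)), S ⊆ A ×ˢ B →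
      (∀ z ∈ S, Module.finrank ℚ (K (z.1 + z.2)) = 2 ∧ ∃ α : K (z.1 + z.2),
        IntermediateField.adjoin ℚ {α} = ⊤ ∧ α ^ 2 = ((z.1 + z.2 : ℤ) : K (z.1 + z.2))) →
      (∀ Y : ℝ, 1 ≤ Y → Y ^ (2 * k) ≤ A.card → Y ^ (2 * k) ≤ B.card →
        ∑ z ∈ S, (Nat.card {x : ClassGroup (𝓞 (K (z.1 + z.2))) // x ^ ℓ = 1} : ℝ) ^ k ≤
          A.card * B.card * (C * ℓ ^ 2 * Real.log N ^ 6 *
            (√(8 * N) * max ((8 * (N : ℝ)) ^ (-(1 / (2 * (ℓ : ℝ))))) (1 / Y))) ^ k) ∧
      ((8 * (N : ℝ)) ^ ((k : ℝ) / ℓ) ≤ A.card → (8 * (N : ℝ)) ^ ((k : ℝ) / ℓ) ≤ B.card →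
        ∑ z ∈ S, (Nat.card {x : ClassGroup (𝓞 (K (z.1 + z.2))) // x ^ ℓ = 1} : ℝ) ^ k ≤
          A.card * B.card * (C * ℓ ^ 2 * Real.log N ^ 6 * (8 * (N : ℝ)) ^ (1 / 2 - 1 / (2 * (ℓ : ℝ)))) ^ k) := by
  obtain ⟨C, hC, h⟩ := torsion_pairs k hk
  refine ⟨1200 * C * (1000 * C), by nlinarith, ?_⟩
  intro N A B ℓ hN hA hB hℓ K _ _ S hS hK
  have hNr : (2 : ℝ) ≤ N := by exact_mod_cast hN
  have hlog2 : 1 / 2 < Real.log 2 := by have := Real.log_two_gt_d9; linarith
  have hlN : 1 / 2 < Real.log N := hlog2.trans_le (Real.log_le_log (by norm_num) hNr)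
  have hℓr : (1 : ℝ) ≤ ℓ := by exact_mod_cast hℓ
  have h8 : (1 : ℝ) < 8 * N := by linarith
  have main : ∀ Y : ℝ, 1 ≤ Y → Y ^ (2 * k) ≤ A.card → Y ^ (2 * k) ≤ B.card →
        ∑ z ∈ S, (Nat.card {x : ClassGroup (𝓞 (K (z.1 + z.2))) // x ^ ℓ = 1} : ℝ) ^ k ≤
          A.card * B.card * ((1200 * C * (1000 * C)) * ℓ ^ 2 * Real.log N ^ 6 *
            (√(8 * N) * max ((8 * (N : ℝ)) ^ (-(1 / (2 * (ℓ : ℝ))))) (1 / Y))) ^ k := by
    intro Y hY hYA hYB
    set μ : ℝ := max ((8 * (N : ℝ)) ^ (-(1 / (2 * (ℓ : ℝ))))) (1 / Y) with hμ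
    have hμ0 : 0 < μ := lt_max_of_lt_left (by positivity)
    have hμ1 : μ ≤ 1 := by
      apply max_le
      · exact Real.rpow_le_one_of_one_le_of_nonpos h8.le (by
          have : 0 < 1 / (2 * (ℓ : ℝ)) := by positivity
          linarith)
      · rw [div_le_one (by linarith)]; exact hY
    set P : ℝ := √(8 * N) * μ with hP
    have hP0 : 0 < P := by positivity
    -- exceptional sets for the levels
    have hlev : ∀ i : ℕ, ∃ G : Finset (ℤ × ℤ), (G.card : ℝ) ≤ (C * Real.log N ^ 2 / 2 ^ i) ^ k * (A.card * B.card) ∧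
        ∀ z ∈ S, tor (K (z.1 + z.2)) ℓ ≤ C * ℓ ^ 2 * √(8 * N) ∧
          (z ∉ G → tor (K (z.1 + z.2)) ℓ ≤ (1200 * C * ℓ ^ 2 * P) * (2 ^ i + Real.log N ^ 3)) := by
      intro i
      obtain ⟨G, -, hGc, hG⟩ := h N 1 A B (2 ^ i) Y hN one_ne_zero (by rw [abs_one]; exact_mod_cast (by omega : 1 ≤ N))
        (sub_Icc hA) (sub_Icc hB) (one_le_pow₀ (by norm_num)) hY hYA hYB
      refine ⟨G, hGc, fun z hz => ?_⟩
      obtain ⟨hfin, α, hα, hsq⟩ := hK z hz
      obtain ⟨g1, g2, g3⟩ := hG z (hS hz) ℓ hℓ (K (z.1 + z.2)) α hfin hα (by rw [one_mul]; exact hsq)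
      have hΔ := disc_gt (K (z.1 + z.2)) hfin
      set Δ : ℝ := |(discr (K (z.1 + z.2)) : ℝ)| with hΔdef
      have hΔ0 : 0 < Δ := by linarith
      have hz' := Finset.mem_product.1 (hS hz)
      have hΔN : Δ ≤ 8 * N := by
        refine g1.trans ?_
        have h5 : |z.1 + z.2| ≤ 2 * (N : ℤ) := by
          have a1 := hA _ hz'.1
          have a2 := hB _ hz'.2
          have a3 := abs_add_le z.1 z.2
          linarith
        have h6 : |(((1 : ℤ) * (z.1 + z.2) : ℤ) : ℝ)| ≤ 2 * N := by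
          rw [one_mul]
          exact_mod_cast h5
        linarith
      have hs : √Δ ≤ √(8 * N) := Real.sqrt_le_sqrt hΔN
      have hCl : 0 ≤ C * (ℓ : ℝ) ^ 2 := by positivity
      refine ⟨g2.trans (mul_le_mul_of_nonneg_left hs hCl), fun hzG => ?_⟩
      have hexp : √Δ * max (Δ ^ (-(1 / (2 * (ℓ : ℝ))))) (1 / Y) ≤ P := by
        rw [mul_max_of_nonneg _ _ (Real.sqrt_nonneg _)]
        apply max_le
        · have h5 : √Δ * Δ ^ (-(1 / (2 * (ℓ : ℝ)))) ≤ √(8 * N) * (8 * (N : ℝ)) ^ (-(1 / (2 * (ℓ : ℝ)))) := by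
            rw [Real.sqrt_eq_rpow, Real.sqrt_eq_rpow, ← Real.rpow_add hΔ0, ← Real.rpow_add (by positivity)]
            apply Real.rpow_le_rpow hΔ0.le hΔN
            have : 1 / (2 * (ℓ : ℝ)) ≤ 1 / 2 := by
              apply one_div_le_one_div_of_le (by norm_num)
              linarith
            linarith
          exact h5.trans (mul_le_mul_of_nonneg_left (le_max_left _ _) (Real.sqrt_nonneg _))
        · exact mul_le_mul hs (le_max_right _ _) (by positivity) (Real.sqrt_nonneg _)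
      rcases g3 hzG with h4 | h4
      · have h5 : √Δ ≤ 1200 * 2 ^ i * P := by
          rcases min_choice (Δ ^ (1 / (2 * (ℓ : ℝ))) / 600) Y with h6 | h6
          · rw [h6] at h4
            have h7 : 0 < Δ ^ (1 / (2 * (ℓ : ℝ))) := by positivity
            have h8 : √Δ = Δ ^ (1 / (2 * (ℓ : ℝ))) * (√Δ * Δ ^ (-(1 / (2 * (ℓ : ℝ))))) := by
              rw [Real.rpow_neg hΔ0.le]; field_simp
            have h9 : √Δ * Δ ^ (-(1 / (2 * (ℓ : ℝ)))) ≤ P :=
              (mul_le_mul_of_nonneg_left (le_max_left _ _) (Real.sqrt_nonneg _)).trans hexp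
            rw [h8]
            apply mul_le_mul _ h9 (by positivity) (by positivity)
            linarith
          · rw [h6] at h4
            have hY0 : 0 < Y := by linarith
            have h9 : √Δ * (1 / Y) ≤ P :=
              (mul_le_mul_of_nonneg_left (le_max_right _ _) (Real.sqrt_nonneg _)).trans hexp
            have h8 : √Δ = Y * (√Δ * (1 / Y)) := by field_simp
            rw [h8]
            apply mul_le_mul _ h9 (by positivity) (by positivity)
            have : (0 : ℝ) < 2 ^ i := by positivity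
            linarith
        calc tor (K (z.1 + z.2)) ℓ ≤ C * ℓ ^ 2 * √Δ := g2
          _ ≤ C * ℓ ^ 2 * (1200 * 2 ^ i * P) := by gcongr
          _ = (1200 * C * ℓ ^ 2 * P) * 2 ^ i := by ring
          _ ≤ (1200 * C * ℓ ^ 2 * P) * (2 ^ i + Real.log N ^ 3) := by
              apply mul_le_mul_of_nonneg_left _ (by positivity)
              have : 0 ≤ Real.log N ^ 3 := by positivity
              linarith
      · calc tor (K (z.1 + z.2)) ℓ ≤ C * ℓ ^ 2 * Real.log N ^ 3 * √Δ * max (Δ ^ (-(1 / (2 * (ℓ : ℝ))))) (1 / Y) := h4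
          _ = C * ℓ ^ 2 * Real.log N ^ 3 * (√Δ * max (Δ ^ (-(1 / (2 * (ℓ : ℝ))))) (1 / Y)) := by ring
          _ ≤ C * ℓ ^ 2 * Real.log N ^ 3 * P := by gcongr
          _ = (C * ℓ ^ 2 * P) * Real.log N ^ 3 := by ring
          _ ≤ (1200 * C * ℓ ^ 2 * P) * (2 ^ i + Real.log N ^ 3) := by
              apply mul_le_mul _ _ (by positivity) (by positivity)
              · have : 0 ≤ C * ℓ ^ 2 * P := by positivity
                linarith
              · have : (0 : ℝ) < 2 ^ i := by positivity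
                linarith
    choose G hGc hG using hlev
    -- the full product set
    have hAB : (0 : ℝ) ≤ (A.card : ℝ) * B.card := by positivity
    obtain ⟨I, hI1, hI2⟩ : ∃ I : ℕ, 1 / μ ≤ 2 ^ I ∧ (I : ℝ) ≤ 20 * Real.log N := by
      refine ⟨⌈Real.logb 2 (8 * N)⌉₊, ?_, ?_⟩
      · have h5 : 1 / μ ≤ 8 * N := by
          rw [div_le_iff₀ hμ0]
          have h6 : (8 * (N : ℝ)) ^ (-(1 : ℝ)) ≤ μ := by
            refine le_trans ?_ (le_max_left _ _)
            apply Real.rpow_le_rpow_of_exponent_le h8.le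
            have : 1 / (2 * (ℓ : ℝ)) ≤ 1 := by
              rw [div_le_one (by positivity)]
              linarith
            linarith
          rw [Real.rpow_neg_one, inv_eq_one_div, div_le_iff₀ (by positivity)] at h6
          linarith
        refine h5.trans ?_
        have h6 : (2 : ℝ) ^ (Real.logb 2 (8 * N)) = 8 * N := Real.rpow_logb (by norm_num) (by norm_num) (by positivity)
        rw [← Real.rpow_natCast]
        nth_rewrite 1 [← h6]
        exact Real.rpow_le_rpow_of_exponent_le (by norm_num) (Nat.le_ceil _)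
      · have h5 : 0 ≤ Real.logb 2 (8 * N) := Real.logb_nonneg (by norm_num) h8.le
        have h6 := Nat.ceil_lt_add_one h5
        have h7 : Real.logb 2 (8 * N) = 3 + Real.log N / Real.log 2 := by
          unfold Real.logb
          rw [Real.log_mul (by norm_num) (by positivity), show (8 : ℝ) = 2 ^ 3 by norm_num, Real.log_pow]
          have : Real.log 2 ≠ 0 := by linarith
          push_cast
          field_simp
        have h8 : Real.log N / Real.log 2 ≤ 2 * Real.log N := by
          rw [div_le_iff₀ (by linarith)]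
          nlinarith
        linarith
    set Q : ℝ := Real.log N ^ 3 with hQ
    have hQ0 : 0 ≤ Q := by positivity
    -- extend by zero to the product set
    set f : ℤ × ℤ → ℝ := fun z => if z ∈ S then tor (K (z.1 + z.2)) ℓ else 0 with hf
    have hsum := level_sum (A ×ˢ B) f G I k (C * Real.log N ^ 2) (1200 * C * ℓ ^ 2 * P) Q
      (by
        intro z _
        rw [hf]
        simp only
        split_ifs
        · exact tor_nonneg _ _
        · exact le_rfl) (by positivity) hQ0 (by positivity)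
      (by
        intro z _ i hzG
        rw [hf]
        simp only
        split_ifs with hzS
        · exact (hG i z hzS).2 hzG
        · positivity)
      (by
        intro z _
        rw [hf]
        simp only
        split_ifs with hzS
        · refine (hG 0 z hzS).1.trans ?_
          have h5 : √(8 * N) = P * (1 / μ) := by rw [hP]; field_simp
          calc C * ℓ ^ 2 * √(8 * N) = (C * ℓ ^ 2 * P) * (1 / μ) := by rw [h5]; ring
            _ ≤ (C * ℓ ^ 2 * P) * 2 ^ I := by gcongr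
            _ ≤ (1200 * C * ℓ ^ 2 * P) * 2 ^ I := by
                have : 0 ≤ C * ℓ ^ 2 * P := by positivity
                gcongr
                linarith
        · positivity)
      (by
        intro i
        rw [Finset.card_product]
        push_cast
        refine le_trans ?_ (hGc i)
        exact_mod_cast Finset.card_le_card (fun x hx => (Finset.mem_inter.1 hx).1))
    have hle : ∑ z ∈ S, (Nat.card {x : ClassGroup (𝓞 (K (z.1 + z.2))) // x ^ ℓ = 1} : ℝ) ^ k ≤
        ∑ z ∈ A ×ˢ B, f z ^ k := by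
      refine le_trans (le_of_eq ?_) (Finset.sum_le_sum_of_subset_of_nonneg hS fun z _ _ => by
        rw [hf]
        simp only
        split_ifs
        exact pow_nonneg le_rfl _)
      apply Finset.sum_congr rfl
      intro z hz
      rw [hf]
      simp only [if_pos hz]
      rfl
    refine hle.trans (hsum.trans ?_)
    rw [Finset.card_product]
    push_cast
    set lN := Real.log N with hlN0
    have hfinal : (1 + Q) ^ k + I * (C * lN ^ 2 * (2 + Q)) ^ k ≤ (1000 * C * lN ^ 6) ^ k := by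
      have h5 : 1 ≤ 2 * lN := by linarith
      have h6 : 1 + Q ≤ 72 * lN ^ 6 := by
        have a1 : 1 ≤ (2 * lN) ^ 6 := one_le_pow₀ h5
        have a2 : Q ≤ 8 * lN ^ 6 := by
          have a3 : 1 ≤ (2 * lN) ^ 3 := one_le_pow₀ h5
          have a4 : Q * 1 ≤ Q * (2 * lN) ^ 3 := mul_le_mul_of_nonneg_left a3 hQ0
          calc Q = Q * 1 := by ring
            _ ≤ Q * (2 * lN) ^ 3 := a4
            _ = 8 * lN ^ 6 := by rw [hQ]; ring
        have a5 : (2 * lN) ^ 6 = 64 * lN ^ 6 := by ring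
        linarith
      have h7 : lN ^ 2 * (2 + Q) ≤ 20 * lN ^ 5 := by
        have a3 : 1 ≤ (2 * lN) ^ 3 := one_le_pow₀ h5
        have a4 : (2 * lN) ^ 3 = 8 * lN ^ 3 := by ring
        have a6 : 2 + Q ≤ 17 * lN ^ 3 := by rw [hQ]; linarith
        calc lN ^ 2 * (2 + Q) ≤ lN ^ 2 * (17 * lN ^ 3) := by gcongr
          _ = 17 * lN ^ 5 := by ring
          _ ≤ 20 * lN ^ 5 := by
              have : 0 ≤ lN ^ 5 := by positivity
              linarith
      have h8 : (I : ℝ) * (C * lN ^ 2 * (2 + Q)) ^ k ≤ (400 * C * lN ^ 6) ^ k := by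
        have b0 : 0 ≤ C * lN ^ 2 * (2 + Q) := by positivity
        have b1 : C * lN ^ 2 * (2 + Q) ≤ C * (20 * lN ^ 5) := by
          rw [mul_assoc]
          gcongr
        have b2 : (I : ℝ) ≤ (20 * lN) ^ k := by
          have b3 : (1 : ℝ) ≤ 20 * lN := by linarith
          calc (I : ℝ) ≤ (20 * lN) ^ 1 := by rw [pow_one]; exact hI2
            _ ≤ (20 * lN) ^ k := pow_le_pow_right₀ b3 hk
        calc (I : ℝ) * (C * lN ^ 2 * (2 + Q)) ^ k ≤ (20 * lN) ^ k * (C * (20 * lN ^ 5)) ^ k := by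
              apply mul_le_mul b2 (pow_le_pow_left₀ b0 b1 k) (by positivity) (by positivity)
          _ = (400 * C * lN ^ 6) ^ k := by
              rw [← mul_pow]
              congr 1
              ring
      have h9 : (1 + Q) ^ k ≤ (72 * C * lN ^ 6) ^ k := by
        apply pow_le_pow_left₀ (by positivity)
        have : 0 ≤ lN ^ 6 := by positivity
        calc 1 + Q ≤ 72 * lN ^ 6 := h6
          _ = 72 * 1 * lN ^ 6 := by ring
          _ ≤ 72 * C * lN ^ 6 := by gcongr
      have hX0 : 0 ≤ C * lN ^ 6 := by positivity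
      calc (1 + Q) ^ k + I * (C * lN ^ 2 * (2 + Q)) ^ k ≤ (72 * C * lN ^ 6) ^ k + (400 * C * lN ^ 6) ^ k := add_le_add h9 h8
        _ ≤ (72 * C * lN ^ 6 + 400 * C * lN ^ 6) ^ k := by
            apply pow_add_pow_le (by positivity) (by positivity)
            omega
        _ ≤ (1000 * C * lN ^ 6) ^ k := by
            apply pow_le_pow_left₀ (by positivity)
            linarith
    have hM0 : 0 ≤ 1200 * C * ℓ ^ 2 * P := by positivity
    calc (1200 * C * ℓ ^ 2 * P) ^ k * ((1 + Q) ^ k + I * (C * lN ^ 2 * (2 + Q)) ^ k) * (A.card * B.card)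
        ≤ (1200 * C * ℓ ^ 2 * P) ^ k * (1000 * C * lN ^ 6) ^ k * (A.card * B.card) := by gcongr
      _ = A.card * B.card * (1200 * C * (1000 * C) * ℓ ^ 2 * lN ^ 6 * P) ^ k := by
          rw [← mul_pow]
          ring
  refine ⟨main, fun hYA hYB => ?_⟩
  have hY1 : (1 : ℝ) ≤ (8 * (N : ℝ)) ^ (1 / (2 * (ℓ : ℝ))) := Real.one_le_rpow h8.le (by positivity)
  have hYk : ((8 * (N : ℝ)) ^ (1 / (2 * (ℓ : ℝ)))) ^ (2 * k) = (8 * (N : ℝ)) ^ ((k : ℝ) / ℓ) := by
    rw [← Real.rpow_natCast, ← Real.rpow_mul (by positivity)]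
    congr 1
    push_cast
    field_simp
  have h1 := main ((8 * (N : ℝ)) ^ (1 / (2 * (ℓ : ℝ)))) hY1 (by rw [hYk]; exact hYA) (by rw [hYk]; exact hYB)
  have h2 : √(8 * N) * max ((8 * (N : ℝ)) ^ (-(1 / (2 * (ℓ : ℝ))))) (1 / (8 * (N : ℝ)) ^ (1 / (2 * (ℓ : ℝ)))) =
      (8 * (N : ℝ)) ^ (1 / 2 - 1 / (2 * (ℓ : ℝ))) := by
    rw [one_div ((8 * (N : ℝ)) ^ (1 / (2 * (ℓ : ℝ)))), ← Real.rpow_neg (by positivity), max_self, Real.sqrt_eq_rpow,
      ← Real.rpow_add (by positivity)]
    congr 1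
  rw [h2] at h1
  exact h1

end Pool.Agent.Results.MP_16912e_nt.ArbitrarySumsets
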