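import Pool.Agent.H491R4.AF3
import Pool.Agent.R345.CT2

/-!
# Torsion in the class groups of quadratic fields whose discriminants come from automatic sets

The fields `ℚ(√n)`, `n = c₀ + κ v`, where `v < N` runs through an arbitrary automatic set `S` (the set of the integers whose
digits in a base `b` are accepted by a finite automaton) of more than polylogarithmic size; such sets may have as few as
`N ^ c` elements below `N`, with arbitrarily small `c > 0`. For almost all of these `n` the `ℓ`-torsion of the class group of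
`ℚ(√n)` is smaller than the trivial bound `√|D|` (up to logarithms) by a power, for ALL `ℓ` at once: the bound is
`X √|D| max (|D| ^ (-1 / (2 ℓ)), N ^ (-1 / W))`, so that for large `ℓ` the quality is that known for individual fields only
under GRH (Ellenberg and Venkatesh).

Definitions used: in `Pool.Agent.H491R4.AF` (file `Pool/Agent/H491R4/AF2.lean`): `acc b M N E`: the number of the
integers `v < N` accepted by the automaton `M` (reading the digits of `v` in base `b`, the least significant digit first)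
with the property `E`; `AlmostS b M N κ c τ P`: the proportion of the `v < N` accepted by `M` for which `c + κ v` does not
have the property `P` is at most `τ`.
-/

set_option autoImplicit false

namespace Pool.Agent.Results.MP_16912e_nt.AutomaticDiscriminants

open Finset Filter Pool.Agent.R459.Eq Pool.Agent.H491R4.AF NumberField
open scoped Nat.Prime
open Pool.Agent.R345.SS (PS class_quadratic pi_facts)

/-- `p ≠ 2` and `n` is a nonzero square modulo `p` -/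
def Spl (j p : ℕ) (_a n : ℤ) : Prop := j = 0 ∧ p ≠ 2 ∧ jacobiSym n p = 1

lemma spl_per (j p : ℕ) (_hp : p.Prime) (a a' n n' : ℤ) (_h : (p : ℤ) ∣ a - a') (h' : (p : ℤ) ∣ n - n') :
    Spl j p a n ↔ Spl j p a' n' := by
  unfold Spl
  have h1 : n % (p : ℤ) = n' % (p : ℤ) := Int.emod_eq_emod_iff_emod_sub_eq_zero.2 (Int.emod_eq_zero_of_dvd h')
  rw [jacobiSym.mod_left' h1]

lemma sum_range_zmod (p : ℕ) [NeZero p] (f : ZMod p → ℤ) : ∑ t ∈ range p, f (t : ZMod p) = ∑ x : ZMod p, f x :=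
  sum_nbij' (fun t : ℕ => (t : ZMod p)) (fun x => x.val) (fun _ _ => mem_univ _)
    (fun x _ => mem_range.2 (ZMod.val_lt x)) (fun _ ht => ZMod.val_cast_of_lt (mem_range.1 ht))
    (fun x _ => ZMod.natCast_zmod_val x) (fun _ _ => rfl)

lemma two_card (p : ℕ) (hp : p.Prime) (hp2 : p ≠ 2) (a : ℤ) [DecidablePred fun t : ℕ => Spl 0 p a t] :
    ((((range p).filter (fun t : ℕ => Spl 0 p a t)).card : ℕ) : ℤ) * 2 = p - 1 := by
  have : Fact p.Prime := ⟨hp⟩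
  have h1 : ((((range p).filter (fun t : ℕ => Spl 0 p a t)).card : ℕ) : ℤ) * 2 =
      ∑ t ∈ range p, ((quadraticChar (ZMod p) (t : ZMod p)) ^ 2 + quadraticChar (ZMod p) (t : ZMod p)) := by
    rw [card_filter, Nat.cast_sum, sum_mul]
    refine sum_congr rfl fun t _ => ?_
    have h2 : Spl 0 p a t ↔ quadraticChar (ZMod p) (t : ZMod p) = 1 := by
      unfold Spl
      rw [← jacobiSym.legendreSym.to_jacobiSym]
      unfold legendreSym
      simp [hp2]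
    by_cases h0 : (t : ZMod p) = 0
    · have h3 : ¬ Spl 0 p a t := by
        rw [h2, h0]
        simp
      simp [h3, h0]
    · rcases quadraticChar_dichotomy h0 with h3 | h3
      · have h4 := h2.2 h3
        simp [h4, h3]
      · have h4 : ¬ Spl 0 p a t := by
          rw [h2, h3]
          norm_num
        simp [h4, h3]
  rw [h1, sum_add_distrib, sum_range_zmod p (fun x => quadraticChar (ZMod p) x ^ 2),
    sum_range_zmod p (fun x => quadraticChar (ZMod p) x),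
    quadraticChar_sum_zero (by rw [ZMod.ringChar_zmod_n]; exact hp2)]
  have h5 : ∀ x : ZMod p, quadraticChar (ZMod p) x ^ 2 = 1 - (if x = 0 then 1 else 0) := by
    intro x
    by_cases h0 : x = 0
    · simp [h0]
    · rw [quadraticChar_sq_one h0]
      simp [h0]
  simp only [h5, sum_sub_distrib, sum_ite_eq']
  simp [ZMod.card]

lemma dens_ge (p : ℕ) (hp : p.Prime) (hp2 : p ≠ 2) (a : ℤ) : 1 / 3 ≤ Pool.Agent.R459.Eq.dens (Spl 0) a p := by
  classical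
  unfold Pool.Agent.R459.Eq.dens
  have h1 := two_card p hp hp2 a
  have h3 : 3 ≤ p := by
    have := hp.two_le
    omega
  have h3' : (3 : ℝ) ≤ p := by exact_mod_cast h3
  have h2 : ((((range p).filter (fun t : ℕ => Spl 0 p a t)).card : ℕ) : ℝ) * 2 = p - 1 := by
    have : ((((range p).filter (fun t : ℕ => Spl 0 p a t)).card : ℤ) : ℝ) * 2 = ((p - 1 : ℤ) : ℝ) := by
      rw [← h1]
      push_cast
      ring
    push_cast at this
    exact_mod_cast this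
  rw [le_div_iff₀ (by linarith)]
  linarith

lemma dens_nonneg' (p : ℕ) (a : ℤ) : 0 ≤ Pool.Agent.R459.Eq.dens (Spl 0) a p := by
  unfold Pool.Agent.R459.Eq.dens
  positivity

lemma pri_eq (x : ℕ) : pri x = Nat.primesLE x := by
  ext p
  rw [mem_pri, Nat.mem_primesLE]

lemma card_pri (x : ℕ) : (pri x).card = π x := by
  rw [pri_eq]
  exact Nat.primesLE_card_eq_primeCounting x

lemma model_ge (a : ℤ) (x : ℕ) : ((π x : ℝ) - 1) / 3 ≤ ∑ p ∈ pri x, Pool.Agent.R459.Eq.dens (Spl 0) a p := by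
  classical
  have h1 : ∑ p ∈ (pri x).erase 2, (1 / 3 : ℝ) ≤ ∑ p ∈ (pri x).erase 2, Pool.Agent.R459.Eq.dens (Spl 0) a p := by
    refine sum_le_sum fun p hp => ?_
    rw [mem_erase, mem_pri] at hp
    exact dens_ge p hp.2.2 hp.1 a
  have h2 : ∑ p ∈ (pri x).erase 2, Pool.Agent.R459.Eq.dens (Spl 0) a p ≤ ∑ p ∈ pri x, Pool.Agent.R459.Eq.dens (Spl 0) a p :=
    sum_le_sum_of_subset_of_nonneg (erase_subset _ _) fun p _ _ => dens_nonneg' p a
  have h3 : (π x : ℝ) - 1 ≤ ((pri x).erase 2).card := by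
    have h4 := pred_card_le_card_erase (s := pri x) (a := 2)
    rw [card_pri] at h4
    have h5 : (π x : ℕ) ≤ ((pri x).erase 2).card + 1 := by omega
    have h6 : (π x : ℝ) ≤ ((((pri x).erase 2).card + 1 : ℕ) : ℝ) := by exact_mod_cast h5
    push_cast at h6
    linarith
  rw [sum_const, nsmul_eq_mul] at h1
  linarith

lemma cnt_eq (a n : ℤ) (x : ℕ) : cntR (Spl 0) a n x = (PS n x).card := by
  classical
  unfold cntR PS
  rw [pri_eq]
  congr 1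
  ext p
  simp only [mem_filter, Spl, true_and]

/-- the model dominates the error -/
lemma large_x : ∃ Y : ℕ, ∀ x : ℕ, Y ≤ x → (π x : ℝ) / 8 ≤ ((π x : ℝ) - 1) / 3 - (x : ℝ) ^ (1 / 2 + 1 / 4 : ℝ) := by
  obtain ⟨Y0, _, hpi⟩ := pi_facts 1 one_pos
  have h1 := (isLittleO_log_rpow_atTop (show (0 : ℝ) < 1 / 4 by norm_num)).def (show (0 : ℝ) < 1 / 20 by norm_num)
  obtain ⟨x0, hx0⟩ := (h1.and (eventually_ge_atTop (1 : ℝ))).exists_forall_of_atTop
  refine ⟨max Y0 (max 16 ⌈x0⌉₊), fun x hx => ?_⟩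
  have hx1 : Y0 ≤ x := le_trans (le_max_left _ _) hx
  have hx2 : 16 ≤ x := le_trans (le_trans (le_max_left _ _) (le_max_right _ _)) hx
  have hx3 : x0 ≤ x := (Nat.le_ceil x0).trans (by exact_mod_cast (le_trans (le_trans (le_max_right _ _) (le_max_right _ _)) hx))
  have hxr : (16 : ℝ) ≤ x := by exact_mod_cast hx2
  have h2 := (hx0 x hx3).1
  rw [Real.norm_of_nonneg (Real.log_nonneg (by linarith)), Real.norm_of_nonneg (by positivity)] at h2
  have h3 := (hpi x hx1).1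
  have hl : 0 < Real.log x := Real.log_pos (by linarith)
  have hr : 0 < (x : ℝ) ^ (1 / 4 : ℝ) := by positivity
  have h4 : 10 * (x : ℝ) ^ (1 / 2 + 1 / 4 : ℝ) ≤ (x : ℝ) / (2 * Real.log x) := by
    rw [le_div_iff₀ (by positivity)]
    have h5 : (x : ℝ) ^ (1 / 2 + 1 / 4 : ℝ) * (x : ℝ) ^ (1 / 4 : ℝ) = x := by
      rw [← Real.rpow_add (by linarith)]
      norm_num
    have h6 : 0 < (x : ℝ) ^ (1 / 2 + 1 / 4 : ℝ) := by positivity
    calc 10 * (x : ℝ) ^ (1 / 2 + 1 / 4 : ℝ) * (2 * Real.log x) = (x : ℝ) ^ (1 / 2 + 1 / 4 : ℝ) * (20 * Real.log x) := by ring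
      _ ≤ (x : ℝ) ^ (1 / 2 + 1 / 4 : ℝ) * (x : ℝ) ^ (1 / 4 : ℝ) := by
          apply mul_le_mul_of_nonneg_left _ h6.le
          linarith
      _ = x := h5
  have h7 : (1 : ℝ) ≤ (x : ℝ) ^ (1 / 2 + 1 / 4 : ℝ) := Real.one_le_rpow (by linarith) (by norm_num)
  linarith

/-- for almost all `n` there are many small split primes, at all scales -/
theorem split_aut {σ : Type} [Fintype σ] (b : ℕ) (hb : 2 ≤ b) (M : DFA ℕ σ)
    (hS : ∀ k : ℕ, ∃ᶠ N : ℕ in atTop, Real.log N ^ k < (acc b M N (fun _ => True) : ℝ))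
    (δ : ℝ) (hδ : 0 < δ) (hδ1 : δ ≤ 1 / 4) : ∃ W e : ℕ, 1 ≤ W ∧
    ∀ κ : ℤ, κ ≠ 0 → ∃ X₀ : ℕ, ∀ X : ℕ, X₀ ≤ X → ∀ N : ℕ, ∀ c₀ : ℤ,
    AlmostS b M N κ c₀ (2 * Real.log N ^ e * (X : ℝ) ^ (-(δ / 2))) (fun n => ∀ y : ℕ, X ≤ y → y ^ W ≤ N →
      (π y : ℝ) / 8 ≤ (PS n y).card) := by
  obtain ⟨W, e, hW, H⟩ := two_count_aut b hb M hS δ hδ (by linarith)
  obtain ⟨Y, hY⟩ := large_x
  refine ⟨W, e, hW, fun κ hκ => ?_⟩
  obtain ⟨X₀, J⟩ := H κ hκ
  refine ⟨max X₀ (max Y 1), fun X hX N c₀ => ?_⟩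
  have hX1 : X₀ ≤ X := le_trans (le_max_left _ _) hX
  have hX2 : Y ≤ X := le_trans (le_trans (le_max_left _ _) (le_max_right _ _)) hX
  have hX3 : 1 ≤ X := le_trans (le_trans (le_max_right _ _) (le_max_right _ _)) hX
  obtain ⟨h1, -⟩ := J X hX1 N c₀ Spl spl_per (by
    intro p _ a n Q hQ
    have h3 : Q.card ≤ 1 := by
      rw [card_le_one]
      intro i hi j hj
      rw [(hQ i hi).1, (hQ j hj).1]
    omega)
  have h8 : 2 * Real.log N ^ e * (X : ℝ) ^ (-(δ / 2)) = Real.log N ^ e * (2 * (X : ℝ) ^ (-(δ / 2))) := by ring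
  rw [h8]
  refine AlmostS.mono (h1 0) ?_
  intro n hn y hXy hyW
  have h2 := (hn y hXy hyW).1 0 (Nat.zero_le _)
  rw [cnt_eq] at h2
  have h3 := model_ge 0 y
  have h4 := hY y (hX2.trans hXy)
  have hy1 : (1 : ℝ) ≤ y := by exact_mod_cast hX3.trans hXy
  have h5 : (y : ℝ) ^ (1 / 2 + δ) ≤ (y : ℝ) ^ (1 / 2 + 1 / 4 : ℝ) := Real.rpow_le_rpow_of_exponent_le hy1 (by linarith)
  have h6 := (abs_le.1 h2).1
  linarith

lemma pick (D : ℝ) (hD : 1 ≤ D) (N W ℓ : ℕ) (hN : 1 ≤ N) (hW : 1 ≤ W) (hℓ : 1 ≤ ℓ) :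
    ∃ y : ℕ, (600 * (y : ℝ)) ^ (2 * ℓ) ≤ D ∧ y ^ W ≤ N ∧
      1 ≤ ((y : ℝ) + 1) * (600 * max (D ^ (-(1 / (2 * (ℓ : ℝ))))) ((N : ℝ) ^ (-(1 / (W : ℝ))))) := by
  have hD0 : 0 < D := by linarith
  have hN0 : (0 : ℝ) < N := by exact_mod_cast hN
  have hl0 : (0 : ℝ) < ℓ := by exact_mod_cast hℓ
  have hW0 : (0 : ℝ) < W := by exact_mod_cast hW
  obtain ⟨A, hA⟩ : ∃ A : ℝ, A = D ^ (1 / (2 * (ℓ : ℝ))) := ⟨_, rfl⟩
  obtain ⟨B, hB⟩ : ∃ B : ℝ, B = (N : ℝ) ^ (1 / (W : ℝ)) := ⟨_, rfl⟩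
  have hA0 : 0 < A := by rw [hA]; positivity
  have hB0 : 0 < B := by rw [hB]; positivity
  have hA1 : D ^ (-(1 / (2 * (ℓ : ℝ)))) = A⁻¹ := by rw [hA, Real.rpow_neg hD0.le]
  have hB1 : (N : ℝ) ^ (-(1 / (W : ℝ))) = B⁻¹ := by rw [hB, Real.rpow_neg hN0.le]
  rw [hA1, hB1]
  have hAp : A ^ (2 * ℓ) = D := by
    rw [hA, ← Real.rpow_natCast, ← Real.rpow_mul hD0.le]
    push_cast
    rw [one_div_mul_cancel (by positivity), Real.rpow_one]
  have hBp : B ^ W = N := by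
    rw [hB, ← Real.rpow_natCast, ← Real.rpow_mul hN0.le, one_div_mul_cancel (by positivity), Real.rpow_one]
  have h1 : ((⌊min (A / 600) B⌋₊ : ℕ) : ℝ) ≤ min (A / 600) B := Nat.floor_le (by positivity)
  have h2 := h1.trans (min_le_left _ _)
  have h3 := h1.trans (min_le_right _ _)
  refine ⟨⌊min (A / 600) B⌋₊, ?_, ?_, ?_⟩
  · rw [← hAp]
    exact pow_le_pow_left₀ (by positivity) (by linarith) _
  · have h4 : (((⌊min (A / 600) B⌋₊ ^ W : ℕ)) : ℝ) ≤ (N : ℝ) := by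
      rw [← hBp]
      push_cast
      exact pow_le_pow_left₀ (by positivity) h3 _
    exact_mod_cast h4
  · have h4 := Nat.lt_floor_add_one (min (A / 600) B)
    rcases le_total (A / 600) B with h5 | h5
    · rw [min_eq_left h5] at h4 ⊢
      calc (1 : ℝ) = (A / 600) * (600 * A⁻¹) := by field_simp
        _ ≤ ((⌊A / 600⌋₊ : ℝ) + 1) * (600 * max A⁻¹ B⁻¹) := by
            apply mul_le_mul h4.le _ (by positivity) (by positivity)
            have := le_max_left A⁻¹ B⁻¹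
            linarith
    · rw [min_eq_right h5] at h4 ⊢
      calc (1 : ℝ) = B * B⁻¹ := by field_simp
        _ ≤ ((⌊B⌋₊ : ℝ) + 1) * (600 * max A⁻¹ B⁻¹) := by
            apply mul_le_mul h4.le _ (by positivity) (by positivity)
            have h6 := le_max_right A⁻¹ B⁻¹
            have h7 : 0 < B⁻¹ := by positivity
            linarith

/-- the bound for one field -/
theorem one_field : ∃ C : ℝ, 1 ≤ C ∧ ∀ (N X W : ℕ) (n : ℤ), 2 ≤ N → 1 ≤ X → 1 ≤ W → |n| ≤ (N : ℤ) * (2 * N) →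
    ∀ (K : Type) [Field K] [NumberField K] (α : K), Module.finrank ℚ K = 2 → IntermediateField.adjoin ℚ {α} = ⊤ →
      α ^ 2 = (n : K) → ∀ ℓ : ℕ, 1 ≤ ℓ →
      (Nat.card {x : ClassGroup (𝓞 K) // x ^ ℓ = 1} : ℝ) ≤ C * ℓ ^ 2 * √|(discr K : ℝ)| ∧
      ((∀ y : ℕ, X ≤ y → y ^ W ≤ N → (π y : ℝ) / 8 ≤ (PS n y).card) →
      (Nat.card {x : ClassGroup (𝓞 K) // x ^ ℓ = 1} : ℝ) ≤ C * ℓ ^ 2 * X * Real.log N ^ 3 *
        (√|(discr K : ℝ)| * max (|(discr K : ℝ)| ^ (-(1 / (2 * (ℓ : ℝ))))) ((N : ℝ) ^ (-(1 / (W : ℝ)))))) := by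
  obtain ⟨C, hC, hmain⟩ := class_quadratic
  refine ⟨6000 * C ^ 2, by nlinarith, ?_⟩
  intro N X W n hN hX hW hn K _ _ α hfin hα hαn ℓ hℓ
  obtain ⟨h1, h2⟩ := hmain N n K α ℓ hN hn hfin hα hαn hℓ
  have hD2 : 2 < |discr K| := abs_discr_gt_two (by omega)
  have hD3 : (1 : ℝ) ≤ |(discr K : ℝ)| := by
    have : (2 : ℝ) < |(discr K : ℝ)| := by exact_mod_cast hD2
    linarith
  obtain ⟨D, hD⟩ : ∃ D : ℝ, D = |(discr K : ℝ)| := ⟨_, rfl⟩
  rw [← hD] at h1 h2 hD3 ⊢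
  have hsD : 0 ≤ √D := Real.sqrt_nonneg _
  have hCC : C ≤ 6000 * C ^ 2 := by nlinarith
  refine ⟨h1.trans (by gcongr), fun hsplit => ?_⟩
  obtain ⟨y, hy1, hy2, hy3⟩ := pick D hD3 N W ℓ (by omega) hW hℓ
  obtain ⟨m, hm⟩ : ∃ m : ℝ, m = max (D ^ (-(1 / (2 * (ℓ : ℝ))))) ((N : ℝ) ^ (-(1 / (W : ℝ)))) := ⟨_, rfl⟩
  rw [← hm] at hy3 ⊢
  have hm0 : 0 < m := by
    rw [hm]
    exact lt_max_of_lt_left (by positivity)
  have hNr : (2 : ℝ) ≤ N := by exact_mod_cast hN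
  have hL : 69 / 100 ≤ Real.log N := by
    have h3 := Real.log_le_log (by norm_num) hNr
    have h4 := Real.log_two_gt_d9
    linarith
  obtain ⟨L, hLd⟩ : ∃ L : ℝ, L = Real.log N := ⟨_, rfl⟩
  rw [← hLd] at h2 hL ⊢
  have hXr : (1 : ℝ) ≤ X := by exact_mod_cast hX
  have hl1 : (1 : ℝ) ≤ ℓ := by exact_mod_cast hℓ
  have hL2 : L ^ 2 ≤ 2 * L ^ 3 := by nlinarith [sq_nonneg L]
  have hL3 : 1 ≤ 4 * L ^ 3 := by
    have h3 : (69 / 100 : ℝ) ^ 3 ≤ L ^ 3 := pow_le_pow_left₀ (by norm_num) hL 3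
    norm_num at h3
    linarith
  have hL0 : 0 < L ^ 3 := by linarith
  have hcase : (y : ℝ) < X ∨ (y : ℝ) < C * L ^ 2 → (Nat.card {x : ClassGroup (𝓞 K) // x ^ ℓ = 1} : ℝ) ≤
      6000 * C ^ 2 * ℓ ^ 2 * X * L ^ 3 * (√D * m) := by
    intro hc
    have h3 : (y : ℝ) + 1 ≤ 10 * C * X * L ^ 3 := by
      have e1 : L ^ 3 ≤ X * L ^ 3 := by nlinarith
      have e2 : X * L ^ 3 ≤ C * (X * L ^ 3) := by nlinarith [mul_pos (show (0 : ℝ) < X by linarith) hL0]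
      have e3 : (X : ℝ) ≤ 4 * (X * L ^ 3) := by nlinarith
      rcases hc with h4 | h4
      · nlinarith
      · have e4 : C * L ^ 2 ≤ C * (2 * L ^ 3) := mul_le_mul_of_nonneg_left hL2 (by linarith)
        have e5 : C * L ^ 3 ≤ C * (X * L ^ 3) := mul_le_mul_of_nonneg_left e1 (by linarith)
        nlinarith
    have h4 : 1 ≤ (10 * C * X * L ^ 3) * (600 * m) := hy3.trans (mul_le_mul_of_nonneg_right h3 (by positivity))
    calc (Nat.card {x : ClassGroup (𝓞 K) // x ^ ℓ = 1} : ℝ) ≤ C * ℓ ^ 2 * √D * 1 := by rw [mul_one]; exact h1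
      _ ≤ C * ℓ ^ 2 * √D * ((10 * C * X * L ^ 3) * (600 * m)) := by gcongr
      _ = _ := by ring
  rcases lt_or_ge (y : ℝ) X with h3 | h3
  · exact hcase (Or.inl h3)
  rcases lt_or_ge (y : ℝ) (C * L ^ 2) with h4 | h4
  · exact hcase (Or.inr h4)
  have h5 := h2 y h4 hy1 (hsplit y (by exact_mod_cast h3) hy2)
  have hy0 : (1 : ℝ) ≤ y := hXr.trans h3
  have h6 : 1 / (y : ℝ) ≤ 1200 * m := by
    rw [div_le_iff₀ (by linarith)]
    nlinarith
  calc (Nat.card {x : ClassGroup (𝓞 K) // x ^ ℓ = 1} : ℝ) ≤ C * ℓ ^ 2 * L ^ 3 * √D / y := h5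
    _ = C * ℓ ^ 2 * L ^ 3 * √D * (1 / y) := by ring
    _ ≤ C * ℓ ^ 2 * L ^ 3 * √D * (1200 * m) := by gcongr
    _ = 1200 * C * 1 * (ℓ ^ 2 * L ^ 3 * √D * m) := by ring
    _ ≤ 6000 * C ^ 2 * X * (ℓ ^ 2 * L ^ 3 * √D * m) := by
        apply mul_le_mul_of_nonneg_right _ (by positivity)
        apply mul_le_mul _ hXr (by norm_num) (by positivity)
        nlinarith
    _ = _ := by ring

lemma sqrt_max (D : ℝ) (N : ℕ) (hN : 1 ≤ N) (hD : 1 ≤ D) (hDN : D ≤ 4 * N) (ℓ W : ℕ) (hℓ : 1 ≤ ℓ)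
    (μ : ℝ) (hμ1 : μ ≤ 1 / (2 * (ℓ : ℝ))) (hμ2 : μ ≤ 1 / (W : ℝ)) :
    √D * max (D ^ (-(1 / (2 * (ℓ : ℝ))))) ((N : ℝ) ^ (-(1 / (W : ℝ)))) ≤ 2 * (N : ℝ) ^ (1 / 2 - μ) := by
  have hNr : (1 : ℝ) ≤ N := by exact_mod_cast hN
  have hl : (1 : ℝ) ≤ ℓ := by exact_mod_cast hℓ
  have hD0 : 0 < D := by linarith
  have h4 : (4 : ℝ) ^ (1 / 2 : ℝ) = 2 := by
    rw [← Real.sqrt_eq_rpow, show (4 : ℝ) = 2 ^ 2 by norm_num]
    exact Real.sqrt_sq (by norm_num)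
  have hl2 : 1 / (2 * (ℓ : ℝ)) ≤ 1 / 2 := by
    apply one_div_le_one_div_of_le (by norm_num)
    linarith
  rw [mul_max_of_nonneg _ _ (Real.sqrt_nonneg _)]
  apply max_le
  · rw [Real.sqrt_eq_rpow, ← Real.rpow_add hD0]
    calc D ^ (1 / 2 + -(1 / (2 * (ℓ : ℝ)))) ≤ (4 * (N : ℝ)) ^ (1 / 2 + -(1 / (2 * (ℓ : ℝ)))) :=
          Real.rpow_le_rpow hD0.le hDN (by linarith)
      _ = 4 ^ (1 / 2 + -(1 / (2 * (ℓ : ℝ)))) * (N : ℝ) ^ (1 / 2 + -(1 / (2 * (ℓ : ℝ)))) :=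
          Real.mul_rpow (by norm_num) (by linarith)
      _ ≤ 4 ^ (1 / 2 : ℝ) * (N : ℝ) ^ (1 / 2 - μ) := by
          apply mul_le_mul
          · apply Real.rpow_le_rpow_of_exponent_le (by norm_num)
            have : 0 ≤ 1 / (2 * (ℓ : ℝ)) := by positivity
            linarith
          · apply Real.rpow_le_rpow_of_exponent_le hNr
            linarith
          · positivity
          · positivity
      _ = _ := by rw [h4]
  · calc √D * (N : ℝ) ^ (-(1 / (W : ℝ))) ≤ √(4 * (N : ℝ)) * (N : ℝ) ^ (-μ) := by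
          apply mul_le_mul (Real.sqrt_le_sqrt hDN) _ (by positivity) (by positivity)
          apply Real.rpow_le_rpow_of_exponent_le hNr
          linarith
      _ = 4 ^ (1 / 2 : ℝ) * ((N : ℝ) ^ (1 / 2 : ℝ) * (N : ℝ) ^ (-μ)) := by
          rw [Real.sqrt_eq_rpow, Real.mul_rpow (by norm_num) (by linarith)]
          ring
      _ = _ := by
          rw [h4, ← Real.rpow_add (by linarith), sub_eq_add_neg]

lemma card_le_acc {σ : Type} (b : ℕ) (M : DFA ℕ σ) (N : ℕ) (E : ℕ → Prop) (T : Finset ℕ)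
    (h : ∀ v ∈ T, v < N ∧ Nat.digits b v ∈ M.accepts ∧ E v) : T.card ≤ acc b M N E := by
  classical
  unfold acc
  apply card_le_card
  intro v hv
  rw [mem_filter, mem_range]
  exact h v hv

lemma log_pow_small (A B θ : ℝ) (hθ : 0 < θ) (i j : ℕ) :
    ∀ᶠ N : ℕ in atTop, A * Real.log N ^ i + B * Real.log N ^ j ≤ (N : ℝ) ^ θ := by
  have h1 : ∀ k : ℕ, ∀ E : ℝ, ∀ᶠ x : ℝ in atTop, E * Real.log x ^ k ≤ x ^ θ / 2 := by
    intro k E
    have h2 := (isLittleO_log_rpow_rpow_atTop (k : ℝ) hθ).def (show (0 : ℝ) < 1 / (2 * (|E| + 1)) by positivity)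
    filter_upwards [h2, eventually_ge_atTop (1 : ℝ)] with x hx hx1
    have hl := Real.log_nonneg hx1
    rw [Real.rpow_natCast, Real.norm_of_nonneg (by positivity), Real.norm_of_nonneg (by positivity)] at hx
    have h3 : E ≤ |E| + 1 := by linarith [le_abs_self E]
    have h4 : 0 ≤ Real.log x ^ k := by positivity
    calc E * Real.log x ^ k ≤ (|E| + 1) * Real.log x ^ k := mul_le_mul_of_nonneg_right h3 h4
      _ ≤ (|E| + 1) * (1 / (2 * (|E| + 1)) * x ^ θ) := mul_le_mul_of_nonneg_left hx (by positivity)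
      _ = x ^ θ / 2 := by field_simp
  have h5 := ((h1 i A).and (h1 j B))
  have h6 := tendsto_natCast_atTop_atTop (R := ℝ)
  filter_upwards [h6.eventually h5] with N hN
  linarith [hN.1, hN.2]

/-- **Torsion in the class groups of quadratic fields with discriminants from automatic sets.** Let `S` be the set of the integers
`v ≥ 0` whose digits in base `b ≥ 2` are accepted by a finite automaton `M`, and suppose that `S` has more than
polylogarithmic size: for every `k` there are infinitely many `N` such that more than `(log N) ^ k` elements of `S` are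
smaller than `N`. Let `0 < δ ≤ 1 / 4`. There is `W`, and an absolute constant `C`, with the following properties.

(1) There is `e` such that for `κ ≠ 0` and all sufficiently large `X`, all `N ≥ X ^ W` and all `|c₀| ≤ N ^ 2`: almost all the
`n = c₀ + κ v` with `v ∈ S`, `v < N`, up to a proportion of at most `2 (log N) ^ e X ^ (- δ / 2)`, have for ALL `ℓ ≥ 1`: if `K = ℚ(√n)` is a
quadratic field of discriminant `D`, then the number of the ideal classes `x` with `x ^ ℓ = 1` is at most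
`C ℓ ^ 2 X (log N) ^ 3 √|D| max (|D| ^ (- 1 / (2 ℓ)), N ^ (- 1 / W))`.

(2) For all `ℓ, m ≥ 1` there is `ρ > 0` such that for all sufficiently large `N` the sum of the `m`-th powers of the numbers of
the classes `x` with `x ^ ℓ = 1` in the class groups of the fields `ℚ(√v)`, over any set of `v ∈ S`, `v < N`, for which this is a
quadratic field, is at most `N ^ (m / 2 - ρ)` times the number of the elements of `S` below `N`. -/
theorem result : ∃ C : ℝ, 1 ≤ C ∧ ∀ (σ : Type) [Fintype σ] (b : ℕ) (_ : 2 ≤ b) (M : DFA ℕ σ)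
    (_ : ∀ k : ℕ, ∃ᶠ N : ℕ in atTop, Real.log N ^ k < (acc b M N (fun _ => True) : ℝ)) (δ : ℝ) (_ : 0 < δ) (_ : δ ≤ 1 / 4),
    ∃ W : ℕ, 1 ≤ W ∧
    (∃ e : ℕ, ∀ κ : ℤ, κ ≠ 0 → ∃ X₀ : ℕ, ∀ X : ℕ, X₀ ≤ X → ∀ N : ℕ, X ^ W ≤ N → ∀ c₀ : ℤ, |c₀| ≤ (N : ℤ) ^ 2 →
      AlmostS b M N κ c₀ (2 * Real.log N ^ e * (X : ℝ) ^ (-(δ / 2))) (fun n =>
        ∀ (K : Type) [Field K] [NumberField K] (α : K), Module.finrank ℚ K = 2 → IntermediateField.adjoin ℚ {α} = ⊤ →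
          α ^ 2 = (n : K) → ∀ ℓ : ℕ, 1 ≤ ℓ →
          (Nat.card {x : ClassGroup (𝓞 K) // x ^ ℓ = 1} : ℝ) ≤ C * ℓ ^ 2 * X * Real.log N ^ 3 *
            (√|(discr K : ℝ)| * max (|(discr K : ℝ)| ^ (-(1 / (2 * (ℓ : ℝ))))) ((N : ℝ) ^ (-(1 / (W : ℝ))))))) ∧
    (∀ ℓ m : ℕ, 1 ≤ ℓ → 1 ≤ m → ∃ ρ : ℝ, 0 < ρ ∧ ∃ N₀ : ℕ, ∀ N : ℕ, N₀ ≤ N →
      ∀ (K : ℕ → Type) [∀ v, Field (K v)] [∀ v, NumberField (K v)] (α : ∀ v, K v) (T : Finset ℕ),
      (∀ v ∈ T, v < N ∧ Nat.digits b v ∈ M.accepts ∧ Module.finrank ℚ (K v) = 2 ∧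
        IntermediateField.adjoin ℚ {α v} = ⊤ ∧ (α v) ^ 2 = ((v : ℤ) : K v)) →
      ∑ v ∈ T, (Nat.card {x : ClassGroup (𝓞 (K v)) // x ^ ℓ = 1} : ℝ) ^ m ≤
        (N : ℝ) ^ ((m : ℝ) / 2 - ρ) * acc b M N (fun _ => True)) := by
  classical
  obtain ⟨C, hC, hone⟩ := one_field
  refine ⟨C, hC, ?_⟩
  intro σ _ b hb M hS δ hδ hδ1
  obtain ⟨W, e, hW, H⟩ := split_aut b hb M hS δ hδ hδ1
  refine ⟨W, hW, ⟨e, fun κ hκ => ?_⟩, ?_⟩
  · obtain ⟨X₀, J⟩ := H κ hκ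
    refine ⟨max X₀ (max 2 κ.natAbs), fun X hX N hN c₀ hc => ?_⟩
    have hX1 : X₀ ≤ X := le_trans (le_max_left _ _) hX
    have hX2 : 2 ≤ X := le_trans (le_trans (le_max_left _ _) (le_max_right _ _)) hX
    have hX3 : κ.natAbs ≤ X := le_trans (le_trans (le_max_right _ _) (le_max_right _ _)) hX
    have hXN : X ≤ N := (Nat.le_self_pow (by omega) X).trans hN
    refine le_trans ?_ (J X hX1 N c₀)
    have h1 := acc_mono b M N (E := fun v : ℕ => ¬ (fun n : ℤ => ∀ (K : Type) [Field K] [NumberField K] (α : K),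
        Module.finrank ℚ K = 2 → IntermediateField.adjoin ℚ {α} = ⊤ → α ^ 2 = (n : K) → ∀ ℓ : ℕ, 1 ≤ ℓ →
          (Nat.card {x : ClassGroup (𝓞 K) // x ^ ℓ = 1} : ℝ) ≤ C * ℓ ^ 2 * X * Real.log N ^ 3 *
            (√|(discr K : ℝ)| * max (|(discr K : ℝ)| ^ (-(1 / (2 * (ℓ : ℝ))))) ((N : ℝ) ^ (-(1 / (W : ℝ)))))) (c₀ + κ * v))
      (E' := fun v : ℕ => ¬ (fun n : ℤ => ∀ y : ℕ, X ≤ y → y ^ W ≤ N → (π y : ℝ) / 8 ≤ (PS n y).card) (c₀ + κ * v)) (by
        intro v hv h2 h3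
        apply h2
        intro K _ _ α hfin hα hαn ℓ hℓ
        refine (hone N X W (c₀ + κ * v) (by omega) (by omega) hW ?_ K α hfin hα hαn ℓ hℓ).2 h3
        have e1 : |κ| ≤ (N : ℤ) := by
          rw [Int.abs_eq_natAbs]
          exact_mod_cast hX3.trans hXN
        have e2 : |(v : ℤ)| ≤ (N : ℤ) := by
          rw [abs_of_nonneg (by positivity)]
          exact_mod_cast hv.le
        calc |c₀ + κ * (v : ℤ)| ≤ |c₀| + |κ * (v : ℤ)| := abs_add_le _ _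
          _ = |c₀| + |κ| * |(v : ℤ)| := by rw [abs_mul]
          _ ≤ (N : ℤ) ^ 2 + N * N := by gcongr
          _ = (N : ℤ) * (2 * N) := by ring)
    exact_mod_cast h1
  · intro ℓ m hℓ hm
    obtain ⟨X₀, J⟩ := H 1 one_ne_zero
    have hl : (1 : ℝ) ≤ ℓ := by exact_mod_cast hℓ
    have hWr : (1 : ℝ) ≤ W := by exact_mod_cast hW
    obtain ⟨μ, hμ⟩ : ∃ μ : ℝ, μ = min (1 / (2 * (ℓ : ℝ))) (1 / (W : ℝ)) := ⟨_, rfl⟩
    have hμ0 : 0 < μ := by rw [hμ]; positivity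
    have hμ1 : μ ≤ 1 / (2 * (ℓ : ℝ)) := by rw [hμ]; exact min_le_left _ _
    have hμ2 : μ ≤ 1 / (W : ℝ) := by rw [hμ]; exact min_le_right _ _
    obtain ⟨η, hη⟩ : ∃ η : ℝ, η = μ / 2 := ⟨_, rfl⟩
    have hη0 : 0 < η := by rw [hη]; positivity
    have hθ0 : 0 < η * δ / 4 := by positivity
    have hev := ((log_pow_small ((4 * C * ℓ ^ 2) ^ m) (2 * (2 * C * ℓ ^ 2) ^ m) (η * δ / 4) hθ0 (3 * m) e).and
      ((log_pow_small (2 ^ W) X₀ (η / 2) (by positivity) 0 0).and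
        ((log_pow_small (2 ^ W) X₀ (1 / 2) (by positivity) 0 0).and (eventually_ge_atTop (2 : ℕ)))))
    obtain ⟨N₀, hN₀⟩ := hev.exists_forall_of_atTop
    refine ⟨η * δ / 4, hθ0, N₀, ?_⟩
    intro N hN K _ _ α T hT
    obtain ⟨k1, k2, k3, k4⟩ := hN₀ N hN
    have hNr : (2 : ℝ) ≤ N := by exact_mod_cast k4
    have hN0 : (0 : ℝ) < N := by linarith
    have hL0 : 0 ≤ Real.log N := Real.log_nonneg (by linarith)
    simp only [pow_zero, mul_one] at k2 k3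
    have hX0nn : (0 : ℝ) ≤ X₀ := Nat.cast_nonneg _
    have h2W : (1 : ℝ) ≤ 2 ^ W := one_le_pow₀ (by norm_num)
    have hNη : (1 : ℝ) ≤ (N : ℝ) ^ η := Real.one_le_rpow (by linarith) hη0.le
    obtain ⟨X, hXd⟩ : ∃ X : ℕ, X = ⌈(N : ℝ) ^ η⌉₊ := ⟨_, rfl⟩
    have hX1 : (N : ℝ) ^ η ≤ X := by rw [hXd]; exact Nat.le_ceil _
    have hX2 : (X : ℝ) ≤ 2 * (N : ℝ) ^ η := by
      have h1 := Nat.ceil_lt_add_one (show 0 ≤ (N : ℝ) ^ η by positivity)
      rw [← hXd] at h1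
      linarith
    have hX0 : X₀ ≤ X := by
      have h1 : (X₀ : ℝ) ≤ X := by
        have h2 : (N : ℝ) ^ (η / 2) ≤ (N : ℝ) ^ η := Real.rpow_le_rpow_of_exponent_le (by linarith) (by linarith)
        linarith
      exact_mod_cast h1
    have hX1' : 1 ≤ X := by
      have h1 : (1 : ℝ) ≤ X := hNη.trans hX1
      exact_mod_cast h1
    obtain ⟨Sp, hSp⟩ : ∃ Sp : ℤ → Prop, Sp = (fun n : ℤ => ∀ y : ℕ, X ≤ y → y ^ W ≤ N → (π y : ℝ) / 8 ≤ (PS n y).card) :=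
      ⟨_, rfl⟩
    have hJ := J X hX0 N 0
    rw [← hSp] at hJ
    unfold AlmostS at hJ
    obtain ⟨A, hA⟩ : ∃ A : ℝ, A = acc b M N (fun _ => True) := ⟨_, rfl⟩
    have hA0 : 0 ≤ A := by rw [hA]; positivity
    rw [← hA] at hJ ⊢
    have hc1 : ((T.filter (fun v : ℕ => ¬ Sp (0 + 1 * v))).card : ℝ) ≤ 2 * Real.log N ^ e * (X : ℝ) ^ (-(δ / 2)) * A := by
      refine le_trans ?_ hJ
      have h1 : (T.filter (fun v : ℕ => ¬ Sp (0 + 1 * v))).card ≤ acc b M N (fun v => ¬ Sp (0 + 1 * v)) := by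
        apply card_le_acc
        intro v hv
        rw [mem_filter] at hv
        exact ⟨(hT v hv.1).1, (hT v hv.1).2.1, hv.2⟩
      exact_mod_cast h1
    have hc2 : ((T.filter (fun v : ℕ => Sp (0 + 1 * v))).card : ℝ) ≤ A := by
      rw [hA]
      have h1 : (T.filter (fun v : ℕ => Sp (0 + 1 * v))).card ≤ acc b M N (fun _ => True) := by
        apply card_le_acc
        intro v hv
        rw [mem_filter] at hv
        exact ⟨(hT v hv.1).1, (hT v hv.1).2.1, trivial⟩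
      exact_mod_cast h1
    have hdd : ∀ v ∈ T, 1 ≤ |(discr (K v) : ℝ)| ∧ |(discr (K v) : ℝ)| ≤ 4 * N := by
      intro v hv
      obtain ⟨g1, g2, g3, g4, g5⟩ := hT v hv
      constructor
      · have h1 : 2 < |discr (K v)| := abs_discr_gt_two (by omega)
        have h2 : (2 : ℝ) < |(discr (K v) : ℝ)| := by exact_mod_cast h1
        linarith
      · refine (Pool.Agent.R345.SS.disc_quadratic (K v) (α v) v g3 g4 g5).trans ?_
        have h1 : |((v : ℤ) : ℝ)| ≤ N := by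
          rw [Int.cast_natCast, abs_of_nonneg (by positivity)]
          exact_mod_cast g1.le
        linarith
    have hvN : ∀ v ∈ T, |(v : ℤ)| ≤ (N : ℤ) * (2 * N) := by
      intro v hv
      have h1 : (v : ℤ) ≤ N := by exact_mod_cast (hT v hv).1.le
      rw [abs_of_nonneg (by positivity)]
      have h2 : (2 : ℤ) ≤ N := by exact_mod_cast k4
      nlinarith
    have hs4 : ∀ v ∈ T, √|(discr (K v) : ℝ)| ≤ 2 * (N : ℝ) ^ (1 / 2 : ℝ) := by
      intro v hv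
      have h1 := Real.sqrt_le_sqrt (hdd v hv).2
      rw [Real.sqrt_mul (by norm_num), show (4 : ℝ) = 2 ^ 2 by norm_num, Real.sqrt_sq (by norm_num),
        Real.sqrt_eq_rpow (N : ℝ)] at h1
      exact h1
    have hterm1 : ∀ v ∈ T.filter (fun v : ℕ => Sp (0 + 1 * v)),
        (Nat.card {x : ClassGroup (𝓞 (K v)) // x ^ ℓ = 1} : ℝ) ^ m ≤
          (4 * C * ℓ ^ 2) ^ m * Real.log N ^ (3 * m) * ((N : ℝ) ^ ((m : ℝ) / 2) * (N : ℝ) ^ (-(η * δ / 2))) := by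
      intro v hv
      rw [mem_filter] at hv
      obtain ⟨g1, g2, g3, g4, g5⟩ := hT v hv.1
      have hv2 := hv.2
      rw [hSp, zero_add, one_mul] at hv2
      have h1 := (hone N X W v k4 hX1' hW (hvN v hv.1) (K v) (α v) g3 g4 g5 ℓ hℓ).2 hv2
      have h2 := sqrt_max |(discr (K v) : ℝ)| N (by omega) (hdd v hv.1).1 (hdd v hv.1).2 ℓ W hℓ μ hμ1 hμ2
      have h3 : (Nat.card {x : ClassGroup (𝓞 (K v)) // x ^ ℓ = 1} : ℝ) ≤
          4 * C * ℓ ^ 2 * Real.log N ^ 3 * (N : ℝ) ^ (1 / 2 - η) := by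
        calc _ ≤ _ := h1
          _ ≤ C * ℓ ^ 2 * (2 * (N : ℝ) ^ η) * Real.log N ^ 3 * (2 * (N : ℝ) ^ (1 / 2 - μ)) := by gcongr
          _ = 4 * C * ℓ ^ 2 * Real.log N ^ 3 * ((N : ℝ) ^ η * (N : ℝ) ^ (1 / 2 - μ)) := by ring
          _ = _ := by
              rw [← Real.rpow_add hN0, show η + (1 / 2 - μ) = 1 / 2 - η by rw [hη]; ring]
      have h4 : ((N : ℝ) ^ (1 / 2 - η)) ^ m ≤ (N : ℝ) ^ ((m : ℝ) / 2) * (N : ℝ) ^ (-(η * δ / 2)) := by
        rw [← Real.rpow_natCast, ← Real.rpow_mul hN0.le, ← Real.rpow_add hN0]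
        apply Real.rpow_le_rpow_of_exponent_le (by linarith)
        have hmr : (1 : ℝ) ≤ m := by exact_mod_cast hm
        nlinarith
      calc (Nat.card {x : ClassGroup (𝓞 (K v)) // x ^ ℓ = 1} : ℝ) ^ m
          ≤ (4 * C * ℓ ^ 2 * Real.log N ^ 3 * (N : ℝ) ^ (1 / 2 - η)) ^ m := pow_le_pow_left₀ (by positivity) h3 m
        _ = (4 * C * ℓ ^ 2) ^ m * Real.log N ^ (3 * m) * ((N : ℝ) ^ (1 / 2 - η)) ^ m := by
            rw [mul_pow, mul_pow, pow_mul]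
        _ ≤ _ := mul_le_mul_of_nonneg_left h4 (by positivity)
    have hterm2 : ∀ v ∈ T.filter (fun v : ℕ => ¬ Sp (0 + 1 * v)),
        (Nat.card {x : ClassGroup (𝓞 (K v)) // x ^ ℓ = 1} : ℝ) ^ m ≤ (2 * C * ℓ ^ 2) ^ m * (N : ℝ) ^ ((m : ℝ) / 2) := by
      intro v hv
      rw [mem_filter] at hv
      obtain ⟨g1, g2, g3, g4, g5⟩ := hT v hv.1
      have h1 := (hone N X W v k4 hX1' hW (hvN v hv.1) (K v) (α v) g3 g4 g5 ℓ hℓ).1
      have h3 : (Nat.card {x : ClassGroup (𝓞 (K v)) // x ^ ℓ = 1} : ℝ) ≤ 2 * C * ℓ ^ 2 * (N : ℝ) ^ (1 / 2 : ℝ) := by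
        calc _ ≤ _ := h1
          _ ≤ C * ℓ ^ 2 * (2 * (N : ℝ) ^ (1 / 2 : ℝ)) := mul_le_mul_of_nonneg_left (hs4 v hv.1) (by positivity)
          _ = _ := by ring
      calc (Nat.card {x : ClassGroup (𝓞 (K v)) // x ^ ℓ = 1} : ℝ) ^ m
          ≤ (2 * C * ℓ ^ 2 * (N : ℝ) ^ (1 / 2 : ℝ)) ^ m := pow_le_pow_left₀ (by positivity) h3 m
        _ = (2 * C * ℓ ^ 2) ^ m * (N : ℝ) ^ ((m : ℝ) / 2) := by
            rw [mul_pow, ← Real.rpow_natCast ((N : ℝ) ^ (1 / 2 : ℝ)), ← Real.rpow_mul hN0.le]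
            congr 2
            ring
    have hXδ : (X : ℝ) ^ (-(δ / 2)) ≤ (N : ℝ) ^ (-(η * δ / 2)) := by
      calc (X : ℝ) ^ (-(δ / 2)) ≤ ((N : ℝ) ^ η) ^ (-(δ / 2)) :=
            Real.rpow_le_rpow_of_nonpos (by positivity) hX1 (by linarith)
        _ = _ := by
            rw [← Real.rpow_mul hN0.le]
            congr 1
            ring
    rw [← sum_filter_add_sum_filter_not T (fun v : ℕ => Sp (0 + 1 * v))]
    have hs1 := sum_le_card_nsmul _ _ _ hterm1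
    have hs2 := sum_le_card_nsmul _ _ _ hterm2
    rw [nsmul_eq_mul] at hs1 hs2
    obtain ⟨Q, hQ⟩ : ∃ Q : ℝ, Q = (N : ℝ) ^ ((m : ℝ) / 2) * (N : ℝ) ^ (-(η * δ / 2)) := ⟨_, rfl⟩
    have hQ0 : 0 < Q := by rw [hQ]; positivity
    have hs1' : ∑ v ∈ T.filter (fun v : ℕ => Sp (0 + 1 * v)), (Nat.card {x : ClassGroup (𝓞 (K v)) // x ^ ℓ = 1} : ℝ) ^ m ≤
        A * ((4 * C * ℓ ^ 2) ^ m * Real.log N ^ (3 * m) * Q) := by
      rw [hQ]
      refine hs1.trans (mul_le_mul_of_nonneg_right hc2 (by positivity))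
    have hs2' : ∑ v ∈ T.filter (fun v : ℕ => ¬ Sp (0 + 1 * v)), (Nat.card {x : ClassGroup (𝓞 (K v)) // x ^ ℓ = 1} : ℝ) ^ m ≤
        A * (2 * (2 * C * ℓ ^ 2) ^ m * Real.log N ^ e * Q) := by
      refine hs2.trans ?_
      calc _ ≤ (2 * Real.log N ^ e * (N : ℝ) ^ (-(η * δ / 2)) * A) * ((2 * C * ℓ ^ 2) ^ m * (N : ℝ) ^ ((m : ℝ) / 2)) := by
            apply mul_le_mul_of_nonneg_right _ (by positivity)
            refine hc1.trans ?_
            gcongr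
        _ = _ := by rw [hQ]; ring
    calc _ ≤ A * ((4 * C * ℓ ^ 2) ^ m * Real.log N ^ (3 * m) * Q) + A * (2 * (2 * C * ℓ ^ 2) ^ m * Real.log N ^ e * Q) :=
          add_le_add hs1' hs2'
      _ = (A * Q) * ((4 * C * ℓ ^ 2) ^ m * Real.log N ^ (3 * m) + 2 * (2 * C * ℓ ^ 2) ^ m * Real.log N ^ e) := by ring
      _ ≤ (A * Q) * (N : ℝ) ^ (η * δ / 4) := mul_le_mul_of_nonneg_left k1 (by positivity)
      _ = (N : ℝ) ^ ((m : ℝ) / 2 - η * δ / 4) * A := by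
          rw [hQ, ← Real.rpow_add hN0, mul_assoc, ← Real.rpow_add hN0, mul_comm]
          congr 2
          ring

end Pool.Agent.Results.MP_16912e_nt.AutomaticDiscriminants
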