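import Pool.Agent.Y159.TG.Fin
import Pool.Agent.Y542.TQ.Sup
import Pool.Agent.Y495.TG.LS
import Pool.Agent.Y759.TG.Res
import Pool.Agent.Y907.TG.Sm
import Pool.Agent.Y261.TG.Cnt
import Pool.Agent.Y495.TG.Grow

set_option autoImplicit false

/-!
# The average of `#Cl[p]` over the quadratic fields of discriminant `f(t)`, `f` of any degree

Let `f` be a polynomial of degree `n ≥ 1` with integer coefficients which is not a constant times the
square of a polynomial, and let `p` be a prime.  For the real and the imaginary quadratic fields of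
discriminant `D = f(t)` the mean value (and the moments of order `r` with `3 r (n + 1) ≤ 2 (p + r)`) of
`p ^ r_p(D) = #Cl[p]` is bounded with the exponent `1 / 2 - (n + 1) / (2 n (p + r))` of `|D|`, and
similarly for `t` in short intervals.
-/

namespace Pool.Agent.Results.MP_16912e_nt.PolynomialFamilies

open NumberField Polynomial

/-- The class group modulo `p`-th powers: `Cl(K) / p Cl(K)` in additive notation. -/
abbrev ClModP (K : Type) [Field K] [NumberField K] (p : ℕ) : Type :=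
  ClassGroup (𝓞 K) ⧸ (powMonoidHom p : ClassGroup (𝓞 K) →* ClassGroup (𝓞 K)).range

/-- For a finite commutative group the number of the elements killed by `p` is the order of the quotient
by the `p`-th powers. -/
theorem card_quot {G : Type} [CommGroup G] [Finite G] (p : ℕ) :
    Nat.card (G ⧸ (powMonoidHom p : G →* G).range) = Nat.card {x : G // x ^ p = 1} := by
  have h1 : Nat.card (powMonoidHom p : G →* G).range * Nat.card (powMonoidHom p : G →* G).ker =
      Nat.card G := by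
    have h2 := Subgroup.card_eq_card_quotient_mul_card_subgroup (powMonoidHom p : G →* G).ker
    rw [Nat.card_congr (QuotientGroup.quotientKerEquivRange (powMonoidHom p : G →* G)).toEquiv] at h2
    exact h2.symm
  have h3 := Subgroup.card_eq_card_quotient_mul_card_subgroup (powMonoidHom p : G →* G).range
  have h4 : 0 < Nat.card (powMonoidHom p : G →* G).range := Nat.card_pos
  have h5 : Nat.card {x : G // x ^ p = 1} = Nat.card (powMonoidHom p : G →* G).ker := by
    apply Nat.card_congr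
    exact Equiv.subtypeEquivRight fun x => by rw [MonoidHom.mem_ker]; rfl
  rw [h5]
  rw [h3] at h1
  have h6 : Nat.card (powMonoidHom p : G →* G).range * Nat.card (powMonoidHom p : G →* G).ker =
      Nat.card (powMonoidHom p : G →* G).range * Nat.card (G ⧸ (powMonoidHom p : G →* G).range) := by
    rw [h1, mul_comm]
  exact (Nat.eq_of_mul_eq_mul_left h4 h6).symm

/-- Let `f ∈ ℤ[X]` be of degree `n`, not of the form `c g²` with `c ∈ ℚ` and `g ∈ ℚ[X]`, let `p` be a
prime, `r ≥ 1` and `ε > 0`.  There is a constant `C` such that: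

* for all real numbers `1 ≤ H ≤ N` with `(H N ^ n) ^ (3 r / (2 (p + r))) ≤ H` and all quadratic fields
  `K_t` (real or imaginary) of discriminant `f(t)`, where `t` runs through a finite set `S` of integers
  with `N ≤ |t| ≤ N + H`,
  `∑_{t ∈ S} (p ^ r_p(f(t))) ^ r ≤ C N ^ ε H (√(N ^ n) / (H N ^ n) ^ (1 / (2 (p + r)))) ^ r`;
* if `3 r (n + 1) ≤ 2 (p + r)`, then for `T ≥ 1` and quadratic fields `K_t` of discriminant `f(t)` with
  `|t| ≤ T`
  `∑_{t ∈ S} (p ^ r_p(f(t))) ^ r ≤ C T ^ (1 + r n / 2 - r (n + 1) / (2 (p + r)) + ε)`.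

Here `p ^ r_p(D)` is the number of elements of `Cl(K) / p Cl(K)`, equivalently of `Cl(K)[p]`. -/
theorem result (f : ℤ[X])
    (hf : ∀ (c : ℚ) (g : ℚ[X]), f.map (Int.castRingHom ℚ) ≠ C c * g ^ 2)
    (p r : ℕ) (hp : p.Prime) (hr : 1 ≤ r) (ε : ℝ) (hε : 0 < ε) : ∃ C : ℝ, 0 < C ∧
    (∀ N H : ℝ, 1 ≤ H → H ≤ N →
      (H * N ^ f.natDegree) ^ (3 * (r : ℝ) / (2 * ((p : ℝ) + r))) ≤ H →
      ∀ (S : Finset ℤ) (K : ℤ → Type) [∀ t, Field (K t)] [∀ t, NumberField (K t)],
      (∀ t ∈ S, (N ≤ |(t : ℝ)| ∧ |(t : ℝ)| ≤ N + H) ∧ Module.finrank ℚ (K t) = 2 ∧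
        discr (K t) = f.eval t) →
      ∑ t ∈ S, (Nat.card (ClModP (K t) p) : ℝ) ^ r ≤
        C * N ^ ε * H * (√(N ^ f.natDegree) /
          (H * N ^ f.natDegree) ^ (1 / (2 * ((p : ℝ) + r)))) ^ r) ∧
    (3 * r * (f.natDegree + 1) ≤ 2 * (p + r) → ∀ T : ℝ, 1 ≤ T →
      ∀ (S : Finset ℤ) (K : ℤ → Type) [∀ t, Field (K t)] [∀ t, NumberField (K t)],
      (∀ t ∈ S, |(t : ℝ)| ≤ T ∧ Module.finrank ℚ (K t) = 2 ∧ discr (K t) = f.eval t) →
      ∑ t ∈ S, (Nat.card (ClModP (K t) p) : ℝ) ^ r ≤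
        C * T ^ (1 + (r : ℝ) * f.natDegree / 2 -
          (r : ℝ) * (f.natDegree + 1) / (2 * ((p : ℝ) + r)) + ε)) := by
  have hcnt := Pool.Agent.Y261.TG.cnt Pool.Agent.Y495.TG.ls Pool.Agent.Y759.TG.res
    Pool.Agent.Y907.TG.Sm.sm
  have hgrow := Pool.Agent.Y495.TG.grow
  have hsup := Pool.Agent.Y542.TQ.sup
  have hp1 : 1 ≤ p := hp.one_lt.le
  obtain ⟨C1, hC1, h1⟩ := Pool.Agent.Y159.TG.short_g' hcnt hgrow hsup f hf p r hp1 hr ε hε
  have h1' : ∀ N H : ℝ, 1 ≤ H → H ≤ N →
      (H * N ^ f.natDegree) ^ (3 * (r : ℝ) / (2 * ((p : ℝ) + r))) ≤ H →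
      ∀ (S : Finset ℤ) (K : ℤ → Type) [∀ t, Field (K t)] [∀ t, NumberField (K t)],
      (∀ t ∈ S, (N ≤ |(t : ℝ)| ∧ |(t : ℝ)| ≤ N + H) ∧ Module.finrank ℚ (K t) = 2 ∧
        discr (K t) = f.eval t) →
      ∑ t ∈ S, (Nat.card (ClModP (K t) p) : ℝ) ^ r ≤
        C1 * N ^ ε * H * (√(N ^ f.natDegree) /
          (H * N ^ f.natDegree) ^ (1 / (2 * ((p : ℝ) + r)))) ^ r := by
    intro N H hH hHN hc S K _ _ hS
    refine le_trans (le_of_eq (Finset.sum_congr rfl fun t _ => ?_)) (h1 N H hH hHN hc S K hS)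
    rw [card_quot]
  by_cases hrl : 3 * r * (f.natDegree + 1) ≤ 2 * (p + r)
  · obtain ⟨C2, hC2, h2⟩ := Pool.Agent.Y159.TG.full_g hcnt hgrow hsup f hf p r hp1 hr hrl ε hε
    refine ⟨max C1 C2, lt_max_of_lt_left hC1, ?_, ?_⟩
    · intro N H hH hHN hc S K _ _ hS
      refine (h1' N H hH hHN hc S K hS).trans ?_
      have hN : 0 < N := by linarith
      have hH0 : 0 < H := by linarith
      have h0 : 0 ≤ N ^ ε * H * (√(N ^ f.natDegree) /
          (H * N ^ f.natDegree) ^ (1 / (2 * ((p : ℝ) + r)))) ^ r := by positivity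
      calc C1 * N ^ ε * H * (√(N ^ f.natDegree) /
          (H * N ^ f.natDegree) ^ (1 / (2 * ((p : ℝ) + r)))) ^ r
          = C1 * (N ^ ε * H * (√(N ^ f.natDegree) /
          (H * N ^ f.natDegree) ^ (1 / (2 * ((p : ℝ) + r)))) ^ r) := by ring
        _ ≤ max C1 C2 * (N ^ ε * H * (√(N ^ f.natDegree) /
          (H * N ^ f.natDegree) ^ (1 / (2 * ((p : ℝ) + r)))) ^ r) := by
            gcongr; exact le_max_left _ _
        _ = _ := by ring
    · intro _ T hT S K _ _ hS
      refine le_trans (le_trans (le_of_eq (Finset.sum_congr rfl fun t _ => ?_)) (h2 T hT S K hS)) ?_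
      · rw [card_quot]
      · gcongr
        exact le_max_right _ _
  · exact ⟨C1, hC1, h1', fun h => absurd h hrl⟩

end Pool.Agent.Results.MP_16912e_nt.PolynomialFamilies
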