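import Pool.Agent.T2H58.DQ.Tor

set_option autoImplicit false

/-!
# Torsion in the class groups of `ℚ(√⌊f(n)⌋)`, `f` smooth (Piatetski-Shapiro sequences)

For the quadratic fields (real or imaginary) generated by the square roots of the integers `⌊f(n)⌋`, `n ≤ X`, the
moments of the number of the ideal classes killed by `ℓ` are bounded with a power saving over the trivial bound, for
every smooth function `f` of polynomial growth which is not too close to a polynomial, uniformly in `f`; for large `ℓ` the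
saving is the one known for single fields under the Riemann hypothesis.

Method. The `k`-th derivative test and an inequality of Erdős-Turán type: the integers `⌊f(n)⌋` are equidistributed
modulo all `q ≤ X^θ` with an error `O(X^(1 - θ))`. So high moments of the sums of `(⌊f(n)⌋ / p)` over `p ≤ y` can be
computed, and most of the fields have many small split primes; then the lemma of Ellenberg and Venkatesh, in the form of
the starting library, is applied.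
-/

namespace Pool.Agent.Results.MP_16912e_nt.RealPowerDiscriminants

open NumberField Polynomial Finset

/-- `f` is `k` times differentiable at all `x ≥ x₀` (with derivatives `F 0 = f`, `F 1`, ..., `F k`), and `f^(k)` or
`-f^(k)` is nonincreasing on `[x₀, ∞)`, between `x ^ (-2 + η)` and `x ^ (-η)`, and at most `A` times its value at
`2 x`. -/
def Regular (k : ℕ) (x₀ η A : ℝ) (f : ℝ → ℝ) : Prop :=
  ∃ F : ℕ → ℝ → ℝ, F 0 = f ∧ (∀ j < k, ∀ x, x₀ ≤ x → HasDerivAt (F j) (F (j + 1) x) x) ∧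
    ∃ s : ℝ, (s = 1 ∨ s = -1) ∧ (∀ x, x₀ ≤ x → x ^ (-2 + η) ≤ s * F k x ∧ s * F k x ≤ x ^ (-η) ∧
      s * F k x ≤ A * (s * F k (2 * x))) ∧ ∀ x y, x₀ ≤ x → x ≤ y → s * F k y ≤ s * F k x

/-- `K` is the quadratic field `ℚ(√d)`. -/
def IsQuad (d : ℤ) (K : Type) [Field K] [NumberField K] : Prop :=
  Module.finrank ℚ K = 2 ∧ ∃ α : K, IntermediateField.adjoin ℚ {α} = ⊤ ∧ α ^ 2 = (d : K)

/-- The number of the ideal classes of `K` killed by `ℓ`; for a prime `ℓ = p` and the discriminant `D` of `K` this is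
`p ^ r_p(D)`. -/
noncomputable def torsion (K : Type) [Field K] [NumberField K] (ℓ : ℕ) : ℝ :=
  (Nat.card {c : ClassGroup (𝓞 K) // c ^ ℓ = 1} : ℝ)

theorem part1 (k : ℕ) (hk : 2 ≤ k) (x₀ η A : ℝ) (hη : 0 < η) (hη1 : η < 1) (hA : 1 ≤ A) (m : ℕ) (hm : 1 ≤ m) :
    ∃ κ C : ℝ, 0 < κ ∧ 0 < C ∧ ∀ f : ℝ → ℝ, Regular k x₀ η A f → ∀ X N ℓ : ℕ, 1 ≤ X → 2 ≤ N → 1 ≤ ℓ →
      (∀ n : ℕ, 1 ≤ n → n ≤ X → |⌊f n⌋| ≤ (N : ℤ)) →
      ∀ (S : Finset ℕ) (K : ℕ → Type) [∀ n, Field (K n)] [∀ n, NumberField (K n)],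
      (∀ n ∈ S, 1 ≤ n ∧ n ≤ X ∧ IsQuad ⌊f n⌋ (K n)) →
      ∑ n ∈ S, torsion (K n) ℓ ^ m ≤
        X * (C * ℓ ^ 2 * Real.log N ^ 3 * (√N * max ((N : ℝ) ^ (-(1 / (2 * (ℓ : ℝ))))) ((X : ℝ) ^ (-κ)))) ^ m := by
  obtain ⟨θ, hθ, hθ1, C₁, hC₁, heq⟩ := Pool.Agent.T2H58.DQ.eq_reg k hk x₀ η hη hη1 A hA
  obtain ⟨C₂, hC₂, htor⟩ := Pool.Agent.T2H58.DQ.torsion_seq m hm
  have hmr : (1 : ℝ) ≤ m := by exact_mod_cast hm
  obtain ⟨κ, hκ⟩ : ∃ κ : ℝ, κ = θ / (3 * m) := ⟨_, rfl⟩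
  have hκ0 : 0 < κ := by rw [hκ]; positivity
  refine ⟨κ, C₂ * (2 * C₁), hκ0, by positivity, ?_⟩
  intro f hf X N ℓ hX hN hℓ hfN S K _ _ hS
  have hXr : (1 : ℝ) ≤ X := by exact_mod_cast hX
  have hX0 : (0 : ℝ) < X := by linarith
  have hNr : (2 : ℝ) ≤ N := by exact_mod_cast hN
  have hN0 : (0 : ℝ) < N := by linarith
  have hℓr : (1 : ℝ) ≤ ℓ := by exact_mod_cast hℓ
  have hXκ : 0 < (X : ℝ) ^ κ := Real.rpow_pos_of_pos hX0 _
  obtain ⟨Y, hY⟩ : ∃ Y : ℝ, Y = (X : ℝ) ^ κ / C₁ := ⟨_, rfl⟩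
  have hY0 : 0 < Y := by rw [hY]; positivity
  have h1 := htor (fun n => ⌊f n⌋) X N (C₁ * (X : ℝ) ^ (1 - θ)) ((X : ℝ) ^ θ) Y (by positivity)
    (fun q hq hqX v hv hvq => heq f hf X q hX hq hqX v hv hvq) hN
    (by
      intro n hn
      rw [mem_Ioc] at hn
      exact hfN n hn.1 hn.2) hY0
    (by
      have h2 : Y ≤ (X : ℝ) ^ κ := by rw [hY]; exact div_le_self hXκ.le hC₁
      refine (pow_le_pow_left₀ hY0.le h2 _).trans ?_
      rw [← Real.rpow_natCast, ← Real.rpow_mul hX0.le]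
      apply Real.rpow_le_rpow_of_exponent_le hXr
      rw [hκ]
      push_cast
      have e : θ / (3 * m) * (2 * m) = θ * (2 / 3) := by field_simp
      rw [e]
      linarith)
    (by
      rw [hY, div_pow, ← Real.rpow_natCast ((X : ℝ) ^ κ), ← Real.rpow_mul hX0.le]
      have e : κ * ((3 * m : ℕ) : ℝ) = θ := by rw [hκ]; push_cast; field_simp
      rw [e]
      have h2 : C₁ ≤ C₁ ^ (3 * m) := le_self_pow₀ hC₁ (by omega)
      have h3 : 0 < C₁ ^ (3 * m) := by positivity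
      calc (X : ℝ) ^ θ / C₁ ^ (3 * m) * (C₁ * (X : ℝ) ^ (1 - θ)) = (X : ℝ) ^ θ * (X : ℝ) ^ (1 - θ) * (C₁ / C₁ ^ (3 * m)) := by
            field_simp
        _ = X * (C₁ / C₁ ^ (3 * m)) := by rw [← Real.rpow_add hX0]; simp
        _ ≤ X * 1 := by
            apply mul_le_mul_of_nonneg_left _ hX0.le
            rw [div_le_one h3]; exact h2
        _ = X := mul_one _)
    ℓ hℓ K S
    (by
      intro n hn
      rw [mem_Ioc]
      exact ⟨(hS n hn).1, (hS n hn).2.1⟩)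
    (fun n hn => (hS n hn).2.2)
  refine h1.trans ?_
  have hlN0 : 0 ≤ Real.log N := Real.log_nonneg (by linarith)
  have h4 : √(4 * (N : ℝ)) = 2 * √N := by
    rw [Real.sqrt_mul (by norm_num), show (4 : ℝ) = 2 ^ 2 by norm_num, Real.sqrt_sq (by norm_num)]
  have h5 : max ((4 * (N : ℝ)) ^ (-(1 / (2 * (ℓ : ℝ))))) (1 / Y) ≤ C₁ * max ((N : ℝ) ^ (-(1 / (2 * (ℓ : ℝ))))) ((X : ℝ) ^ (-κ)) := by
    apply max_le
    · have h6 : (4 * (N : ℝ)) ^ (-(1 / (2 * (ℓ : ℝ)))) ≤ (N : ℝ) ^ (-(1 / (2 * (ℓ : ℝ)))) := by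
        apply Real.rpow_le_rpow_of_nonpos hN0 (by linarith)
        have : 0 < 1 / (2 * (ℓ : ℝ)) := by positivity
        linarith
      have h7 : 0 ≤ max ((N : ℝ) ^ (-(1 / (2 * (ℓ : ℝ))))) ((X : ℝ) ^ (-κ)) := le_max_of_le_left (by positivity)
      exact (h6.trans (le_max_left _ _)).trans (le_mul_of_one_le_left h7 hC₁)
    · have e : 1 / Y = C₁ * (X : ℝ) ^ (-κ) := by
        rw [hY, one_div_div, Real.rpow_neg hX0.le, div_eq_mul_inv]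
      rw [e]
      exact mul_le_mul_of_nonneg_left (le_max_right _ _) (by linarith)
  apply mul_le_mul_of_nonneg_left _ hX0.le
  apply pow_le_pow_left₀ (by positivity)
  rw [h4]
  calc C₂ * ℓ ^ 2 * Real.log N ^ 3 * (2 * √N * max ((4 * (N : ℝ)) ^ (-(1 / (2 * (ℓ : ℝ))))) (1 / Y))
      ≤ C₂ * ℓ ^ 2 * Real.log N ^ 3 * (2 * √N * (C₁ * max ((N : ℝ) ^ (-(1 / (2 * (ℓ : ℝ))))) ((X : ℝ) ^ (-κ)))) := by
        gcongr
    _ = _ := by ring

/-- polynomials of degree less than `c` are bounded by a multiple of `x ^ c` -/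
theorem poly_growth (P : ℝ[X]) (c : ℝ) (hP : (P.natDegree : ℝ) ≤ c) : ∃ B : ℝ, 0 ≤ B ∧ ∀ x : ℝ, 1 ≤ x →
    |P.eval x| ≤ B * x ^ c := by
  refine ⟨∑ i ∈ range (P.natDegree + 1), |P.coeff i|, sum_nonneg fun _ _ => abs_nonneg _, ?_⟩
  intro x hx
  rw [eval_eq_sum_range, sum_mul]
  refine (abs_sum_le_sum_abs _ _).trans (sum_le_sum fun i hi => ?_)
  rw [abs_mul, abs_of_nonneg (show (0 : ℝ) ≤ x ^ i by positivity)]
  apply mul_le_mul_of_nonneg_left _ (abs_nonneg _)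
  rw [← Real.rpow_natCast]
  apply Real.rpow_le_rpow_of_exponent_le hx
  rw [mem_range] at hi
  have : (i : ℝ) ≤ P.natDegree := by exact_mod_cast (by omega : i ≤ P.natDegree)
  linarith

/-- **Main theorem.** (1) Let `k ≥ 2`, `x₀`, `0 < η < 1`, `A ≥ 1`, `m ≥ 1`. There are `κ, C > 0` such that for all `f` with
`Regular k x₀ η A f`, all `X ≥ 1`, `N ≥ 2` with `|⌊f(n)⌋| ≤ N` for `n ≤ X`, all `ℓ ≥ 1` and all quadratic fields
`K_n = ℚ(√⌊f(n)⌋)`, where `n` runs through a set of positive integers `n ≤ X`, the sum of `#Cl(K_n)[ℓ] ^ m` is at most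
`X (C ℓ² (log N)³ √N max (N ^ (-1 / (2 ℓ)), X ^ (-κ))) ^ m`.
(2) If `α ≠ 0`, `c > 0` is not an integer and `P` is a real polynomial of degree at most `⌊c⌋`, then for all `m ≥ 1` there are
`ℓ₀`, `C` such that for all `ℓ ≥ ℓ₀` and `X ≥ 2` and all such sets of fields `ℚ(√⌊α n^c + P(n)⌋)`, `n ≤ X`, this sum is at
most `X (C ℓ² (log X)³ X ^ (c (1/2 - 1/(2 ℓ)))) ^ m`.
(3) If `α ≠ 0` and `c > 0` are real and `c` is not an integer then there are `x₀` and `0 < η < 1` such that for all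
polynomials `P` with real coefficients of degree at most `⌊c⌋ + 1` the function `α x^c + P(x)` is
`Regular (⌊c⌋ + 2) x₀ η 4`; if `α ≠ 0` is real then there is `x₀` such that all functions `α x log x + β x + γ` are
`Regular 2 x₀ (1/2) 4`. -/
theorem result :
    (∀ k : ℕ, 2 ≤ k → ∀ x₀ η A : ℝ, 0 < η → η < 1 → 1 ≤ A → ∀ m : ℕ, 1 ≤ m →
      ∃ κ C : ℝ, 0 < κ ∧ 0 < C ∧ ∀ f : ℝ → ℝ, Regular k x₀ η A f → ∀ X N ℓ : ℕ, 1 ≤ X → 2 ≤ N → 1 ≤ ℓ →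
        (∀ n : ℕ, 1 ≤ n → n ≤ X → |⌊f n⌋| ≤ (N : ℤ)) →
        ∀ (S : Finset ℕ) (K : ℕ → Type) [∀ n, Field (K n)] [∀ n, NumberField (K n)],
        (∀ n ∈ S, 1 ≤ n ∧ n ≤ X ∧ IsQuad ⌊f n⌋ (K n)) →
        ∑ n ∈ S, torsion (K n) ℓ ^ m ≤
          X * (C * ℓ ^ 2 * Real.log N ^ 3 * (√N * max ((N : ℝ) ^ (-(1 / (2 * (ℓ : ℝ))))) ((X : ℝ) ^ (-κ)))) ^ m) ∧
    (∀ α c : ℝ, α ≠ 0 → 0 < c → (∀ n : ℕ, c ≠ n) → ∀ P : ℝ[X], P.natDegree ≤ ⌊c⌋₊ → ∀ m : ℕ, 1 ≤ m →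
      ∃ (ℓ₀ : ℕ) (C : ℝ), 0 < C ∧ ∀ X ℓ : ℕ, 2 ≤ X → ℓ₀ ≤ ℓ →
        ∀ (S : Finset ℕ) (K : ℕ → Type) [∀ n, Field (K n)] [∀ n, NumberField (K n)],
        (∀ n ∈ S, 1 ≤ n ∧ n ≤ X ∧ IsQuad ⌊α * (n : ℝ) ^ c + P.eval (n : ℝ)⌋ (K n)) →
        ∑ n ∈ S, torsion (K n) ℓ ^ m ≤
          X * (C * ℓ ^ 2 * Real.log X ^ 3 * (X : ℝ) ^ (c * (1 / 2 - 1 / (2 * (ℓ : ℝ))))) ^ m) ∧
    (∀ α c : ℝ, α ≠ 0 → 0 < c → (∀ n : ℕ, c ≠ n) → ∃ x₀ η : ℝ, 0 < η ∧ η < 1 ∧ ∀ P : ℝ[X],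
      P.natDegree ≤ ⌊c⌋₊ + 1 → Regular (⌊c⌋₊ + 2) x₀ η 4 (fun x => α * x ^ c + P.eval x)) ∧
    (∀ α : ℝ, α ≠ 0 → ∃ x₀ : ℝ, ∀ β γ : ℝ, Regular 2 x₀ (1 / 2) 4 (fun x => α * (x * Real.log x) + β * x + γ)) := by
  refine ⟨fun k hk x₀ η A hη hη1 hA m hm => part1 k hk x₀ η A hη hη1 hA m hm, ?_,
    fun α c hα hc hcn => Pool.Agent.T2H58.LU.regular_rpow α hα c hc hcn,
    fun α hα => Pool.Agent.T2H58.LU.regular_log α hα⟩
  intro α c hα hc hcn P hP m hm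
  obtain ⟨x₀, η, hη, hη1, hreg⟩ := Pool.Agent.T2H58.LU.regular_rpow α hα c hc hcn
  obtain ⟨κ, C, hκ, hC, hmain⟩ := part1 (⌊c⌋₊ + 2) (by omega) x₀ η 4 hη hη1 (by norm_num) m hm
  have hPc : (P.natDegree : ℝ) ≤ c := by
    have h1 : (P.natDegree : ℝ) ≤ ⌊c⌋₊ := by exact_mod_cast hP
    exact h1.trans (Nat.floor_le hc.le)
  obtain ⟨B, hB, hBP⟩ := poly_growth P c hPc
  -- the size of the members
  obtain ⟨B', hB'⟩ : ∃ B' : ℝ, B' = |α| + B + 4 := ⟨_, rfl⟩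
  have hB'1 : 4 ≤ B' := by
    rw [hB']
    have := abs_nonneg α
    linarith
  obtain ⟨Cl, hCl⟩ : ∃ Cl : ℝ, Cl = Real.log B' / Real.log 2 + c := ⟨_, rfl⟩
  have hl2 : 0 < Real.log 2 := Real.log_pos (by norm_num)
  have hlB : 0 ≤ Real.log B' := Real.log_nonneg (by linarith)
  have hCl0 : 0 < Cl := by rw [hCl]; positivity
  refine ⟨⌈c / (2 * κ)⌉₊ + 1, C * Cl ^ 3 * B', by positivity, ?_⟩
  intro X ℓ hX hℓ S K _ _ hS
  have hXr : (2 : ℝ) ≤ X := by exact_mod_cast hX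
  have hX0 : (0 : ℝ) < X := by linarith
  have hX1 : (1 : ℝ) ≤ X := by linarith
  have hℓ1 : 1 ≤ ℓ := by omega
  have hℓr : (1 : ℝ) ≤ ℓ := by exact_mod_cast hℓ1
  have hℓκ : c / (2 * (ℓ : ℝ)) ≤ κ := by
    have h1 : c / (2 * κ) ≤ ℓ := by
      refine (Nat.le_ceil _).trans ?_
      exact_mod_cast (by omega : ⌈c / (2 * κ)⌉₊ ≤ ℓ)
    rw [div_le_iff₀ (by positivity)] at h1
    rw [div_le_iff₀ (by positivity)]
    linarith
  have hXc : 1 ≤ (X : ℝ) ^ c := Real.one_le_rpow hX1 hc.le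
  obtain ⟨N, hN⟩ : ∃ N : ℕ, N = ⌈(B' - 1) * (X : ℝ) ^ c⌉₊ := ⟨_, rfl⟩
  have hNlo : (B' - 1) * (X : ℝ) ^ c ≤ N := by rw [hN]; exact Nat.le_ceil _
  have hNhi : (N : ℝ) ≤ B' * (X : ℝ) ^ c := by
    have h1 : (N : ℝ) < (B' - 1) * (X : ℝ) ^ c + 1 := by
      rw [hN]
      apply Nat.ceil_lt_add_one
      have : 0 ≤ B' - 1 := by linarith
      positivity
    linarith
  have hN3 : (3 : ℝ) ≤ N := by nlinarith
  have hN2 : 2 ≤ N := by
    have : (2 : ℝ) ≤ N := by linarith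
    exact_mod_cast this
  have hN0 : (0 : ℝ) < N := by linarith
  have hXcN : (X : ℝ) ^ c ≤ N := by nlinarith
  have h1 := hmain (fun x => α * x ^ c + P.eval x) (hreg P (by omega)) X N ℓ (by omega) hN2 hℓ1 (by
    intro n hn1 hn2
    have hnr : (1 : ℝ) ≤ n := by exact_mod_cast hn1
    have hnX : (n : ℝ) ^ c ≤ (X : ℝ) ^ c := Real.rpow_le_rpow (by linarith) (by exact_mod_cast hn2) hc.le
    have hnc : 0 ≤ (n : ℝ) ^ c := by positivity
    have h2 : |α * (n : ℝ) ^ c + P.eval (n : ℝ)| ≤ (|α| + B) * (X : ℝ) ^ c := by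
      refine (abs_add_le _ _).trans ?_
      rw [abs_mul, abs_of_nonneg hnc]
      have h3 := hBP n hnr
      have h4 : |α| * (n : ℝ) ^ c ≤ |α| * (X : ℝ) ^ c := by gcongr
      have h5 : B * (n : ℝ) ^ c ≤ B * (X : ℝ) ^ c := by gcongr
      linarith
    have h3 : |((⌊α * (n : ℝ) ^ c + P.eval (n : ℝ)⌋ : ℤ) : ℝ)| ≤ N := by
      have h4 := Int.floor_le (α * (n : ℝ) ^ c + P.eval (n : ℝ))
      have h5 := Int.lt_floor_add_one (α * (n : ℝ) ^ c + P.eval (n : ℝ))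
      have h6 := abs_le.1 h2
      have h7 : (|α| + B) * (X : ℝ) ^ c + 1 ≤ N := by
        refine le_trans ?_ hNlo
        rw [hB']
        nlinarith
      rw [abs_le]
      constructor <;> linarith [h6.1, h6.2]
    exact_mod_cast h3) S K hS
  refine h1.trans ?_
  have hlX : Real.log 2 ≤ Real.log X := Real.log_le_log (by norm_num) hXr
  have hlX0 : 0 < Real.log X := by linarith
  have hlN0 : 0 ≤ Real.log N := Real.log_nonneg (by linarith)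
  have hlN : Real.log N ≤ Cl * Real.log X := by
    refine (Real.log_le_log hN0 hNhi).trans ?_
    rw [Real.log_mul (by linarith) (by positivity), Real.log_rpow hX0, hCl, add_mul]
    have h2 : Real.log B' ≤ Real.log B' / Real.log 2 * Real.log X := by
      rw [div_mul_eq_mul_div, le_div_iff₀ hl2]
      gcongr
    linarith
  have hmax : √N * max ((N : ℝ) ^ (-(1 / (2 * (ℓ : ℝ))))) ((X : ℝ) ^ (-κ)) ≤
      B' * (X : ℝ) ^ (c * (1 / 2 - 1 / (2 * (ℓ : ℝ)))) := by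
    have h2 : max ((N : ℝ) ^ (-(1 / (2 * (ℓ : ℝ))))) ((X : ℝ) ^ (-κ)) ≤ (X : ℝ) ^ (-(c / (2 * (ℓ : ℝ)))) := by
      apply max_le
      · calc (N : ℝ) ^ (-(1 / (2 * (ℓ : ℝ)))) ≤ ((X : ℝ) ^ c) ^ (-(1 / (2 * (ℓ : ℝ)))) := by
              apply Real.rpow_le_rpow_of_nonpos (by positivity) hXcN
              have : 0 < 1 / (2 * (ℓ : ℝ)) := by positivity
              linarith
          _ = _ := by rw [← Real.rpow_mul hX0.le]; congr 1; ring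
      · exact Real.rpow_le_rpow_of_exponent_le hX1 (by linarith)
    have h3 : √(N : ℝ) ≤ B' * (X : ℝ) ^ (c / 2) := by
      calc √(N : ℝ) ≤ √(B' * (X : ℝ) ^ c) := Real.sqrt_le_sqrt hNhi
        _ = √B' * (X : ℝ) ^ (c / 2) := by
            rw [Real.sqrt_mul (by linarith), Real.sqrt_eq_rpow ((X : ℝ) ^ c), ← Real.rpow_mul hX0.le]
            congr 2; ring
        _ ≤ B' * (X : ℝ) ^ (c / 2) := by
            apply mul_le_mul_of_nonneg_right _ (by positivity)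
            rw [Real.sqrt_le_left (by linarith)]
            nlinarith
    calc √(N : ℝ) * max ((N : ℝ) ^ (-(1 / (2 * (ℓ : ℝ))))) ((X : ℝ) ^ (-κ)) ≤
        (B' * (X : ℝ) ^ (c / 2)) * (X : ℝ) ^ (-(c / (2 * (ℓ : ℝ)))) := by
          apply mul_le_mul h3 h2 (le_max_of_le_left (by positivity)) (by positivity)
      _ = B' * ((X : ℝ) ^ (c / 2) * (X : ℝ) ^ (-(c / (2 * (ℓ : ℝ))))) := by ring
      _ = _ := by rw [← Real.rpow_add hX0]; congr 2; ring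
  apply mul_le_mul_of_nonneg_left _ hX0.le
  apply pow_le_pow_left₀ (by positivity)
  calc C * ℓ ^ 2 * Real.log N ^ 3 * (√N * max ((N : ℝ) ^ (-(1 / (2 * (ℓ : ℝ))))) ((X : ℝ) ^ (-κ)))
      ≤ C * ℓ ^ 2 * (Cl * Real.log X) ^ 3 * (B' * (X : ℝ) ^ (c * (1 / 2 - 1 / (2 * (ℓ : ℝ))))) := by gcongr
    _ = _ := by ring

end Pool.Agent.Results.MP_16912e_nt.RealPowerDiscriminants
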